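import Mathlib

set_option autoImplicit false

/-!
Geometric permutations of `k`-flats: combinatorial core (helper file for MP_06d6be_co).

`GoodY V ι τ`: a family of `2`-flats `(x, y) ↦ (x, y, x α + y β + γ)` of `ℝ × ℝ × V`, indexed by `τ`,
and for every `i : ι` one point on each of them, all at the same level `y i`.
-/

namespace Pool.Agent.helper8.GK

open Filter

/-- the point with coordinates `(x, y)` on the flat `(α, β, γ)` -/
def ptY {V : Type} [AddCommGroup V] [Module ℝ V] (x y : ℝ) (α β γ : V) : ℝ × ℝ × V :=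
  (x, y, x • α + y • β + γ)

/-- orientation determinant of three points of the plane -/
def dtY (x₁ y₁ x₂ y₂ x₃ y₃ : ℝ) : ℝ := (x₂ - x₁) * (y₃ - y₁) - (x₃ - x₁) * (y₂ - y₁)

/-- a good configuration of planes with levels -/
def GoodY (V ι τ : Type) [AddCommGroup V] [Module ℝ V] : Prop :=
  ∃ (y : ι → ℝ) (x : τ → ι → ℝ) (α β γ : τ → V),
    Function.Injective y ∧
    (∀ i j k, y i < y j → y j < y k → ∃ (f : (ℝ × ℝ × V) →ₗ[ℝ] ℝ) (c : ℝ),
      (∀ t, f (ptY (x t j) (y j) (α t) (β t) (γ t)) < c) ∧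
      (∀ t, c < f (ptY (x t i) (y i) (α t) (β t) (γ t))) ∧
      (∀ t, c < f (ptY (x t k) (y k) (α t) (β t) (γ t)))) ∧
    (∀ t t', t ≠ t' → ∃ i j k,
      dtY (x t i) (y i) (x t j) (y j) (x t k) (y k) *
        dtY (x t' i) (y i) (x t' j) (y j) (x t' k) (y k) < 0)

theorem GoodY.trivial (V : Type) [AddCommGroup V] [Module ℝ V] : GoodY V Unit Unit := by
  refine ⟨fun _ => 0, fun _ _ => 0, fun _ => 0, fun _ => 0, fun _ => 0, ?_, ?_, ?_⟩
  · intro a b _
    rfl
  · intro i j k h
    exact absurd h (lt_irrefl _)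
  · intro t t' h
    exact absurd rfl h

theorem GoodY.equiv {V W ι τ : Type} [AddCommGroup V] [Module ℝ V] [AddCommGroup W] [Module ℝ W]
    (e : V ≃ₗ[ℝ] W) (h : GoodY V ι τ) : GoodY W ι τ := by
  obtain ⟨y, x, α, β, γ, h0, h1, h2⟩ := h
  refine ⟨y, x, fun t => e (α t), fun t => e (β t), fun t => e (γ t), h0, ?_, h2⟩
  intro i j k hij hjk
  obtain ⟨f, c, hf1, hf2, hf3⟩ := h1 i j k hij hjk
  refine ⟨f ∘ₗ (LinearMap.prodMap LinearMap.id (LinearMap.prodMap LinearMap.id
    e.symm.toLinearMap)), c, ?_, ?_, ?_⟩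
  · intro t
    simpa [ptY] using hf1 t
  · intro t
    simpa [ptY] using hf2 t
  · intro t
    simpa [ptY] using hf3 t

theorem GoodY.reindex {V ι ι' τ τ' : Type} [AddCommGroup V] [Module ℝ V]
    (e : ι' ≃ ι) (e' : τ' ↪ τ) (h : GoodY V ι τ) : GoodY V ι' τ' := by
  obtain ⟨y, x, α, β, γ, h0, h1, h2⟩ := h
  refine ⟨fun i => y (e i), fun t i => x (e' t) (e i), fun t => α (e' t), fun t => β (e' t),
    fun t => γ (e' t), h0.comp e.injective, ?_, ?_⟩
  · intro i j k hij hjk
    obtain ⟨f, c, hf1, hf2, hf3⟩ := h1 (e i) (e j) (e k) hij hjk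
    exact ⟨f, c, fun t => hf1 _, fun t => hf2 _, fun t => hf3 _⟩
  · intro t t' htt
    obtain ⟨i, j, k, h3⟩ := h2 (e' t) (e' t') (fun h => htt (e'.injective h))
    refine ⟨e.symm i, e.symm j, e.symm k, ?_⟩
    simpa using h3

/-- an upper bound for finitely many numbers -/
theorem exists_bound {ι τ : Type} [Finite ι] [Finite τ] (x : τ → ι → ℝ) :
    ∃ M : ℝ, ∀ t i, |x t i| ≤ M := by
  obtain ⟨M, hM⟩ := (Set.finite_range fun p : τ × ι => |x p.1 p.2|).bddAbove
  exact ⟨M, fun t i => hM (Set.mem_range_self (t, i))⟩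

/-- a lower bound for the gaps between finitely many different numbers -/
theorem exists_gap {ι : Type} [Finite ι] (y : ι → ℝ) :
    ∃ δ : ℝ, 0 < δ ∧ ∀ i j, y i < y j → δ ≤ y j - y i := by
  classical
  cases nonempty_fintype ι
  set S : Finset ℝ := ((Finset.univ : Finset (ι × ι)).filter fun p => y p.1 < y p.2).image
    (fun p => y p.2 - y p.1) with hS
  by_cases hne : S.Nonempty
  · refine ⟨S.min' hne, ?_, ?_⟩
    · have h1 := S.min'_mem hne
      obtain ⟨p, hp, h2⟩ := Finset.mem_image.mp h1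
      rw [← h2]
      have := (Finset.mem_filter.mp hp).2
      linarith
    · intro i j hij
      apply Finset.min'_le
      exact Finset.mem_image.mpr ⟨(i, j), Finset.mem_filter.mpr ⟨Finset.mem_univ _, hij⟩, rfl⟩
  · refine ⟨1, one_pos, ?_⟩
    intro i j hij
    exact absurd ⟨y j - y i, Finset.mem_image.mpr
      ⟨(i, j), Finset.mem_filter.mpr ⟨Finset.mem_univ _, hij⟩, rfl⟩⟩ hne

/-- the linear functional `(x, y, z) ↦ p x + q y` -/
noncomputable def linXY (V : Type) [AddCommGroup V] [Module ℝ V] (p q : ℝ) :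
    (ℝ × ℝ × V) →ₗ[ℝ] ℝ :=
  p • LinearMap.fst ℝ ℝ (ℝ × V) + q • (LinearMap.fst ℝ ℝ V ∘ₗ LinearMap.snd ℝ ℝ (ℝ × V))

theorem linXY_apply {V : Type} [AddCommGroup V] [Module ℝ V] (p q x y : ℝ) (α β γ : V) :
    linXY V p q (ptY x y α β γ) = p * x + q * y := by
  simp [linXY, ptY]

/-- products of configurations -/
theorem GoodY.prod {V W ι κ τ υ : Type} [AddCommGroup V] [Module ℝ V] [AddCommGroup W]
    [Module ℝ W] [Finite ι] [Finite κ] [Finite τ] [Finite υ]
    (h : GoodY V ι τ) (h' : GoodY W κ υ) : GoodY (V × W) (ι ⊕ κ) (τ × υ) := by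
  obtain ⟨y, x, α, β, γ, h0, h1, h2⟩ := h
  obtain ⟨y', x', α', β', γ', h0', h1', h2'⟩ := h'
  obtain ⟨M₁, hM₁⟩ := exists_bound x
  obtain ⟨M₂, hM₂⟩ := exists_bound x'
  obtain ⟨M₃, hM₃⟩ := exists_bound (fun _ : Unit => y)
  obtain ⟨M₄, hM₄⟩ := exists_bound (fun _ : Unit => y')
  obtain ⟨δ₁, hδ₁, hg₁⟩ := exists_gap y
  obtain ⟨δ₂, hδ₂, hg₂⟩ := exists_gap y'
  -- a common bound
  obtain ⟨M, hM0, hMx, hMx', hMy, hMy'⟩ : ∃ M : ℝ, 1 ≤ M ∧ (∀ t i, |x t i| ≤ M) ∧
      (∀ t i, |x' t i| ≤ M) ∧ (∀ i, |y i| ≤ M) ∧ (∀ i, |y' i| ≤ M) := by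
    refine ⟨max 1 (max (max M₁ M₂) (max M₃ M₄)), le_max_left _ _, ?_, ?_, ?_, ?_⟩
    · intro t i
      exact (hM₁ t i).trans (le_trans (le_max_left _ _) (le_trans (le_max_left _ _)
        (le_max_right _ _)))
    · intro t i
      exact (hM₂ t i).trans (le_trans (le_max_right _ _) (le_trans (le_max_left _ _)
        (le_max_right _ _)))
    · intro i
      exact (hM₃ () i).trans (le_trans (le_max_left _ _) (le_trans (le_max_right _ _)
        (le_max_right _ _)))
    · intro i
      exact (hM₄ () i).trans (le_trans (le_max_right _ _) (le_trans (le_max_right _ _)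
        (le_max_right _ _)))
  obtain ⟨δ, hδ, hg, hg'⟩ : ∃ δ : ℝ, 0 < δ ∧ (∀ i j, y i < y j → δ ≤ y j - y i) ∧
      (∀ i j, y' i < y' j → δ ≤ y' j - y' i) :=
    ⟨min δ₁ δ₂, lt_min hδ₁ hδ₂, fun i j hij => (min_le_left _ _).trans (hg₁ i j hij),
      fun i j hij => (min_le_right _ _).trans (hg₂ i j hij)⟩
  -- parameters
  set K : ℝ := 2 * M + 1 with hK
  set l : ℝ := δ / (4 * M) with hl
  have hl0 : 0 < l := by positivity
  have hlM : l * M = δ / 4 := by
    rw [hl]
    field_simp
  set X : ℝ := (5 * M + 2 + l * M) / l with hX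
  have hlX : l * X = 5 * M + 2 + l * M := by
    rw [hX]
    field_simp
  have hbx : ∀ t i, |l * x t i| ≤ δ / 4 := by
    intro t i
    rw [abs_mul, abs_of_pos hl0, ← hlM]
    exact mul_le_mul_of_nonneg_left (hMx t i) hl0.le
  have hbx' : ∀ t i, |l * x' t i| ≤ δ / 4 := by
    intro t i
    rw [abs_mul, abs_of_pos hl0, ← hlM]
    exact mul_le_mul_of_nonneg_left (hMx' t i) hl0.le
  refine ⟨Sum.elim y (fun k => K + y' k), fun p => Sum.elim (x p.1) (fun k => X + x' p.2 k),
    fun p => (α p.1, α' p.2), fun p => (β p.1, β' p.2),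
    fun p => (γ p.1, γ' p.2 - X • α' p.2 - K • β' p.2), ?_, ?_, ?_⟩
  · -- injectivity of the levels
    rintro (i | i) (j | j) hij
    · simp only [Sum.elim_inl] at hij
      rw [h0 hij]
    · simp only [Sum.elim_inl, Sum.elim_inr] at hij
      have h3 := abs_le.mp (hMy i)
      have h4 := abs_le.mp (hMy' j)
      exfalso
      rw [hK] at hij
      linarith [h3.2, h4.1]
    · simp only [Sum.elim_inl, Sum.elim_inr] at hij
      have h3 := abs_le.mp (hMy j)
      have h4 := abs_le.mp (hMy' i)
      exfalso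
      rw [hK] at hij
      linarith [h3.2, h4.1]
    · simp only [Sum.elim_inr, add_right_inj] at hij
      rw [h0' hij]
  · -- separation
    rintro (i | i) (j | j) (k | k) hij hjk
    · -- all in the first family
      simp only [Sum.elim_inl] at hij hjk
      obtain ⟨f, c, hf1, hf2, hf3⟩ := h1 i j k hij hjk
      refine ⟨f ∘ₗ (LinearMap.prodMap LinearMap.id (LinearMap.prodMap LinearMap.id
        (LinearMap.fst ℝ V W))), c, ?_, ?_, ?_⟩
      · intro t
        simpa [ptY] using hf1 t.1
      · intro t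
        simpa [ptY] using hf2 t.1
      · intro t
        simpa [ptY] using hf3 t.1
    · -- `i, j` in the first family, `k` in the second
      simp only [Sum.elim_inl, Sum.elim_inr] at hij hjk ⊢
      refine ⟨linXY (V × W) l (-1), -(y i + y j) / 2, ?_, ?_, ?_⟩
      · intro t
        rw [linXY_apply]
        have h3 := abs_le.mp (hbx t.1 j)
        have h4 := hg i j hij
        linarith [h3.1, h3.2]
      · intro t
        rw [linXY_apply]
        have h3 := abs_le.mp (hbx t.1 i)
        have h4 := hg i j hij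
        linarith [h3.1, h3.2]
      · intro t
        rw [linXY_apply]
        have h3 := abs_le.mp (hbx' t.2 k)
        have h4 := abs_le.mp (hMy i)
        have h5 := abs_le.mp (hMy j)
        have h6 := abs_le.mp (hMy' k)
        have h7 : l * (X + x' t.2 k) = 5 * M + 2 + l * M + l * x' t.2 k := by
          rw [mul_add, hlX]
        rw [h7, hK]
        linarith [h3.1, h4.1, h5.1, h6.2]
    · exfalso
      simp only [Sum.elim_inl, Sum.elim_inr] at hij hjk
      have h3 := abs_le.mp (hMy k)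
      have h4 := abs_le.mp (hMy' j)
      rw [hK] at hjk
      linarith [h3.2, h4.1]
    · -- `i` in the first family, `j, k` in the second
      simp only [Sum.elim_inl, Sum.elim_inr] at hij hjk ⊢
      have hjk' : y' j < y' k := by linarith
      refine ⟨linXY (V × W) (-l) 1, K + (y' j + y' k) / 2 - l * X, ?_, ?_, ?_⟩
      · intro t
        rw [linXY_apply]
        have h3 := abs_le.mp (hbx' t.2 j)
        have h4 := hg' j k hjk'
        have h7 : -l * (X + x' t.2 j) = - (l * X) - l * x' t.2 j := by ring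
        rw [h7]
        linarith [h3.1, h3.2]
      · intro t
        rw [linXY_apply, hlX, hK]
        have h3 := abs_le.mp (hbx t.1 i)
        have h4 := abs_le.mp (hMy i)
        have h5 := abs_le.mp (hMy' j)
        have h6 := abs_le.mp (hMy' k)
        have h7 : -l * x t.1 i = - (l * x t.1 i) := by ring
        rw [h7]
        linarith [h3.1, h3.2, h4.1, h5.2, h6.2]
      · intro t
        rw [linXY_apply]
        have h3 := abs_le.mp (hbx' t.2 k)
        have h4 := hg' j k hjk'
        have h7 : -l * (X + x' t.2 k) = - (l * X) - l * x' t.2 k := by ring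
        rw [h7]
        linarith [h3.1, h3.2]
    · exfalso
      simp only [Sum.elim_inl, Sum.elim_inr] at hij hjk
      have h3 := abs_le.mp (hMy j)
      have h4 := abs_le.mp (hMy' i)
      rw [hK] at hij
      linarith [h3.2, h4.1]
    · exfalso
      simp only [Sum.elim_inl, Sum.elim_inr] at hij hjk
      have h3 := abs_le.mp (hMy j)
      have h4 := abs_le.mp (hMy' i)
      rw [hK] at hij
      linarith [h3.2, h4.1]
    · exfalso
      simp only [Sum.elim_inl, Sum.elim_inr] at hij hjk
      have h3 := abs_le.mp (hMy k)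
      have h4 := abs_le.mp (hMy' j)
      rw [hK] at hjk
      linarith [h3.2, h4.1]
    · -- all in the second family
      simp only [Sum.elim_inr, add_lt_add_iff_left] at hij hjk
      obtain ⟨f, c, hf1, hf2, hf3⟩ := h1' i j k hij hjk
      have key : ∀ (t : τ × υ) (l : κ),
          (f ∘ₗ (LinearMap.prodMap LinearMap.id (LinearMap.prodMap LinearMap.id
            (LinearMap.snd ℝ V W))))
            (ptY (X + x' t.2 l) (K + y' l) (α t.1, α' t.2) (β t.1, β' t.2)
              (γ t.1, γ' t.2 - X • α' t.2 - K • β' t.2)) =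
          f (ptY (x' t.2 l) (y' l) (α' t.2) (β' t.2) (γ' t.2)) + f (X, K, 0) := by
        intro t l
        rw [← map_add]
        simp only [ptY, LinearMap.comp_apply, LinearMap.prodMap_apply, LinearMap.id_apply,
          LinearMap.snd_apply, Prod.smul_mk, Prod.mk_add_mk]
        congr 1
        ext1
        · ring
        · ext1
          · ring
          · simp only [add_smul, add_zero]
            abel
      refine ⟨f ∘ₗ (LinearMap.prodMap LinearMap.id (LinearMap.prodMap LinearMap.id
        (LinearMap.snd ℝ V W))), c + f (X, K, 0), ?_, ?_, ?_⟩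
      · intro t
        simp only [Sum.elim_inr]
        rw [key]
        linarith [hf1 t.2]
      · intro t
        simp only [Sum.elim_inr]
        rw [key]
        linarith [hf2 t.2]
      · intro t
        simp only [Sum.elim_inr]
        rw [key]
        linarith [hf3 t.2]
  · -- different orders
    intro p p' hpp
    by_cases hp : p.1 = p'.1
    · have hp2 : p.2 ≠ p'.2 := fun h => hpp (Prod.ext hp h)
      obtain ⟨i, j, k, h3⟩ := h2' p.2 p'.2 hp2
      refine ⟨Sum.inr i, Sum.inr j, Sum.inr k, ?_⟩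
      simp only [Sum.elim_inr, dtY] at h3 ⊢
      have e1 : ∀ u v : ℝ, X + u - (X + v) = u - v := fun u v => by ring
      have e2 : ∀ u v : ℝ, K + u - (K + v) = u - v := fun u v => by ring
      simp only [e1, e2]
      exact h3
    · obtain ⟨i, j, k, h3⟩ := h2 p.1 p'.1 hp
      exact ⟨Sum.inl i, Sum.inl j, Sum.inl k, by simpa using h3⟩

/-- adding one set -/
theorem GoodY.option {V ι τ : Type} [AddCommGroup V] [Module ℝ V] [Finite ι] [Finite τ]
    (h : GoodY V ι τ) : GoodY V (Option ι) τ := by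
  have h1 : GoodY (V × PUnit.{1}) (ι ⊕ Unit) (τ × Unit) := GoodY.prod h (GoodY.trivial PUnit.{1})
  have e : (V × PUnit.{1}) ≃ₗ[ℝ] V :=
    { toFun := Prod.fst
      map_add' := fun _ _ => rfl
      map_smul' := fun _ _ => rfl
      invFun := fun v => (v, PUnit.unit)
      left_inv := fun _ => rfl
      right_inv := fun _ => rfl }
  exact (GoodY.equiv e h1).reindex (Equiv.optionEquivSumPUnit ι)
    (Equiv.prodPUnit τ).symm.toEmbedding

end Pool.Agent.helper8.GK
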