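import Mathlib
import Pool.Agent.helper8.GK.Core

set_option autoImplicit false

/-!
Geometric permutations of `k`-flats: parameters of the base configuration of planes in `ℝ³`
(helper file for MP_06d6be_co).
-/

namespace Pool.Agent.helper8.GK

/-- scales `G a = K^(2a+1)` -/
noncomputable def G (K : ℝ) (a : ℕ) : ℝ := K ^ (2 * a + 1)

/-- scales `R a = K^(2a+2)` -/
noncomputable def R (K : ℝ) (a : ℕ) : ℝ := K ^ (2 * a + 2)

/-- slope of the planes of wall `b` with parameter `β` -/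
noncomputable def al (K : ℝ) (b : ℕ) (β : ℝ) : ℝ := -(b : ℝ) - β / R K b

/-- sign of a far set -/
noncomputable def sg (s : Bool) : ℝ := if s then 1 else -1

/-- slope of the far set `(a, s)` -/
noncomputable def aW (K : ℝ) (a : ℕ) (s : Bool) : ℝ := -(a : ℝ) - sg s / K

/-- reduced position of the far set `(a, s)` on the planes of wall `b` with parameter `β` -/
noncomputable def xi (K : ℝ) (a : ℕ) (s : Bool) (b : ℕ) (β : ℝ) : ℝ :=
  (sg s * G K a - β) / (al K b β - aW K a s)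

/-- small correction of the position of the far set `(a, s)` -/
noncomputable def oo (K : ℝ) (a : ℕ) (s : Bool) (b : ℕ) (β : ℝ) : ℝ :=
  if b = a then (1 - sg s) * β * R K a else 0

/-- level of the far set `(a, s)` -/
noncomputable def lv (K : ℝ) (a : ℕ) (s : Bool) : ℝ := if s then R K a else G K a

/-- position of the near set with parameter `bb` -/
noncomputable def tau (K : ℝ) (bb : ℝ) (b : ℕ) (β : ℝ) : ℝ := (β - bb) ^ 2 / (3 - al K b β)

/-- hypotheses on the parameters: `M` bounds everything, `K` is huge -/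
structure Par (K M : ℝ) : Prop where
  one_le : 1 ≤ M
  big : 1000 * M ^ 3 ≤ K

theorem sg_cases (s : Bool) : (s = true ∧ sg s = 1) ∨ (s = false ∧ sg s = -1) := by
  cases s <;> simp [sg]

theorem sg_sq (s : Bool) : sg s * sg s = 1 := by
  cases s <;> simp [sg]

section

variable {K M : ℝ}

theorem Par.M3 (h : Par K M) : M ≤ M ^ 3 ∧ M ^ 2 ≤ M ^ 3 ∧ 1 ≤ M ^ 2 ∧ M ≤ M ^ 2 := by
  have h1 := h.one_le
  have h2 : 1 ≤ M ^ 2 := one_le_pow₀ h1
  have h3 : M ≤ M ^ 2 := by nlinarith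
  have h4 : M ^ 2 ≤ M ^ 3 := by
    have : M ^ 3 = M ^ 2 * M := by ring
    nlinarith
  exact ⟨h3.trans h4, h4, h2, h3⟩

theorem Par.K1000 (h : Par K M) : 1000 ≤ K := by
  have h1 := h.big
  obtain ⟨h2, h3, h4, h5⟩ := h.M3
  linarith [h.one_le]

theorem Par.KM2 (h : Par K M) : 1000 * M ^ 2 ≤ K := by
  have h1 := h.big
  obtain ⟨h2, h3, h4, h5⟩ := h.M3
  linarith

theorem Par.KM (h : Par K M) : 1000 * M ≤ K := by
  have h1 := h.big
  obtain ⟨h2, h3, h4, h5⟩ := h.M3
  linarith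

theorem Par.Kpos (h : Par K M) : 0 < K := by linarith [h.K1000]

theorem R_eq (K : ℝ) (a : ℕ) : R K a = K * G K a := by
  unfold R G
  ring

theorem Par.Gge (h : Par K M) (a : ℕ) : K ≤ G K a := by
  unfold G
  have h1 : (1 : ℝ) ≤ K := by linarith [h.K1000]
  calc K = K ^ 1 := (pow_one K).symm
    _ ≤ K ^ (2 * a + 1) := pow_le_pow_right₀ h1 (by omega)

theorem Par.Gpos (h : Par K M) (a : ℕ) : 0 < G K a := lt_of_lt_of_le h.Kpos (h.Gge a)

theorem Par.Rpos (h : Par K M) (a : ℕ) : 0 < R K a := by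
  rw [R_eq]
  exact mul_pos h.Kpos (h.Gpos a)

theorem Par.hier (h : Par K M) {a b : ℕ} (hab : b < a) : K * R K b ≤ G K a := by
  unfold G R
  have h1 : (1 : ℝ) ≤ K := by linarith [h.K1000]
  calc K * K ^ (2 * b + 2) = K ^ (2 * b + 3) := by ring
    _ ≤ K ^ (2 * a + 1) := pow_le_pow_right₀ h1 (by omega)

theorem Par.RgeK (h : Par K M) (a : ℕ) : K ≤ R K a := by
  rw [R_eq]
  have h1 := h.Gge a
  have h2 := h.K1000
  nlinarith [h.Gpos a]

theorem Par.GleR (h : Par K M) (a : ℕ) : 1000 * G K a ≤ R K a := by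
  rw [R_eq]
  exact mul_le_mul_of_nonneg_right h.K1000 (h.Gpos a).le

/-- `0 ≤ β / R ≤ 1/1000` -/
theorem Par.bR (h : Par K M) (b : ℕ) {β : ℝ} (h0 : 0 ≤ β) (h1 : β ≤ M) :
    0 ≤ β / R K b ∧ β / R K b ≤ 1 / 1000 := by
  have h2 := h.Rpos b
  refine ⟨div_nonneg h0 h2.le, ?_⟩
  rw [div_le_div_iff₀ h2 (by norm_num)]
  have h3 := h.RgeK b
  have h4 := h.KM
  linarith

theorem Par.invK (h : Par K M) : 0 < 1 / K ∧ 1 / K ≤ 1 / 1000 := by
  have h2 := h.Kpos
  refine ⟨by positivity, ?_⟩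
  rw [div_le_div_iff₀ h2 (by norm_num)]
  linarith [h.K1000]

theorem Par.sgK (h : Par K M) (s : Bool) : |sg s / K| ≤ 1 / 1000 := by
  obtain ⟨h1, h2⟩ := h.invK
  rcases sg_cases s with ⟨-, h3⟩ | ⟨-, h3⟩
  · rw [h3, abs_of_pos h1]
    exact h2
  · rw [h3, neg_div, abs_neg, abs_of_pos h1]
    exact h2

theorem den_eq (K : ℝ) (a : ℕ) (s : Bool) (b : ℕ) (β : ℝ) :
    al K b β - aW K a s = ((a : ℝ) - b) + sg s / K - β / R K b := by
  unfold al aW
  ring

/-- own wall -/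
theorem Par.den_own (h : Par K M) (a : ℕ) (s : Bool) (β : ℝ) :
    (al K a β - aW K a s) * R K a = sg s * G K a - β := by
  have h1 := h.Kpos
  have h2 := h.Rpos a
  rw [den_eq, R_eq] at *
  have h3 := h.Gpos a
  field_simp
  ring

theorem Par.num_ne (h : Par K M) (a : ℕ) (s : Bool) {β : ℝ} (h0 : 0 ≤ β) (h1 : β ≤ M) :
    sg s * G K a - β ≠ 0 := by
  have h2 := h.Gge a
  have h3 := h.KM
  have h4 := h.one_le
  rcases sg_cases s with ⟨-, h5⟩ | ⟨-, h5⟩ <;> rw [h5]
  · have : 0 < 1 * G K a - β := by linarith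
    exact this.ne'
  · have : -1 * G K a - β < 0 := by linarith
    exact this.ne

theorem Par.den_ne (h : Par K M) (a : ℕ) (s : Bool) (b : ℕ) {β : ℝ} (h0 : 0 ≤ β) (h1 : β ≤ M) :
    al K b β - aW K a s ≠ 0 := by
  rcases eq_or_ne b a with rfl | hab
  · intro h2
    have h3 := h.den_own b s β
    rw [h2, zero_mul] at h3
    exact h.num_ne b s h0 h1 h3.symm
  · intro h2
    rw [den_eq] at h2
    have h3 := abs_le.mp (h.sgK s)
    have h4 := h.bR b h0 h1
    rcases lt_or_gt_of_ne hab with h5 | h5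
    · have h6 : (b : ℝ) + 1 ≤ a := by exact_mod_cast h5
      linarith [h3.1, h3.2, h4.1, h4.2]
    · have h6 : (a : ℝ) + 1 ≤ b := by exact_mod_cast h5
      linarith [h3.1, h3.2, h4.1, h4.2]

theorem Par.xi_mul (h : Par K M) (a : ℕ) (s : Bool) (b : ℕ) {β : ℝ} (h0 : 0 ≤ β) (h1 : β ≤ M) :
    (al K b β - aW K a s) * xi K a s b β = sg s * G K a - β := by
  unfold xi
  rw [mul_div_cancel₀]
  exact h.den_ne a s b h0 h1

theorem Par.xi_own (h : Par K M) (a : ℕ) (s : Bool) {β : ℝ} (h0 : 0 ≤ β) (h1 : β ≤ M) :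
    xi K a s a β = R K a := by
  have h2 := h.xi_mul a s a h0 h1
  have h3 := h.den_own a s β
  exact mul_left_cancel₀ (h.den_ne a s a h0 h1) (h2.trans h3.symm)

theorem Par.xi_other (h : Par K M) (a : ℕ) (s : Bool) (b : ℕ) (hab : b ≠ a) {β : ℝ}
    (h0 : 0 ≤ β) (h1 : β ≤ M) : |xi K a s b β| ≤ 4 * G K a := by
  have h2 : (1 : ℝ) / 2 ≤ |al K b β - aW K a s| := by
    rw [den_eq]
    have h3 := abs_le.mp (h.sgK s)
    have h4 := h.bR b h0 h1
    rcases lt_or_gt_of_ne hab with h5 | h5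
    · have h6 : (b : ℝ) + 1 ≤ a := by exact_mod_cast h5
      rw [le_abs]
      left
      linarith [h3.1, h3.2, h4.1, h4.2]
    · have h6 : (a : ℝ) + 1 ≤ b := by exact_mod_cast h5
      rw [le_abs]
      right
      linarith [h3.1, h3.2, h4.1, h4.2]
  unfold xi
  rw [abs_div, div_le_iff₀ (by linarith)]
  have h3 : |sg s * G K a - β| ≤ 2 * G K a := by
    have h5 := h.Gge a
    have h6 := h.KM
    rcases sg_cases s with ⟨-, h7⟩ | ⟨-, h7⟩ <;> rw [h7, abs_le] <;>
      constructor <;> linarith [h.one_le]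
  have h4 := h.Gpos a
  nlinarith

theorem Par.xi_le (h : Par K M) (a : ℕ) (s : Bool) (b : ℕ) {β : ℝ}
    (h0 : 0 ≤ β) (h1 : β ≤ M) : |xi K a s b β| ≤ R K a := by
  rcases eq_or_ne b a with rfl | hab
  · rw [h.xi_own b s h0 h1, abs_of_pos (h.Rpos b)]
  · refine (h.xi_other a s b hab h0 h1).trans ?_
    linarith [h.GleR a, h.Gpos a]

/-- the correction term is harmless -/
theorem Par.oo_nonneg (h : Par K M) (a : ℕ) (s : Bool) (b : ℕ) {β : ℝ}
    (h0 : 0 ≤ β) : 0 ≤ sg s * (al K b β - aW K a s) * oo K a s b β := by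
  unfold oo
  split_ifs with hab
  · subst hab
    have h2 := h.den_own b s β
    have h3 : sg s * (al K b β - aW K b s) * ((1 - sg s) * β * R K b) =
        sg s * (1 - sg s) * β * ((al K b β - aW K b s) * R K b) := by ring
    rw [h3, h2]
    rcases sg_cases s with ⟨-, h7⟩ | ⟨-, h7⟩ <;> rw [h7]
    · simp
    · have h5 := h.Gpos b
      have : -1 * (1 - -1) * β * (-1 * G K b - β) = 2 * (β * (G K b + β)) := by ring
      rw [this]
      positivity
  · simp

theorem Par.oo_le (h : Par K M) (a : ℕ) (s : Bool) (b : ℕ) {β : ℝ}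
    (h0 : 0 ≤ β) (h1 : β ≤ M) : |oo K a s b β| ≤ 2 * M * R K a := by
  have h2 := h.Rpos a
  have h3 := h.one_le
  unfold oo
  split_ifs with hab
  · rcases sg_cases s with ⟨-, h7⟩ | ⟨-, h7⟩ <;> rw [h7]
    · simp only [sub_self, zero_mul, abs_zero]
      positivity
    · rw [abs_of_nonneg (by positivity)]
      have : (1 - -1) * β * R K a = 2 * (β * R K a) := by ring
      rw [this]
      nlinarith
  · rw [abs_zero]
    positivity

/-- value of a linear functional at a far point -/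
theorem val_far {p q r l x o a' b' aw g β : ℝ} (h : (a' - aw) * x = g - β) :
    p * (l * x + o) + q * l + r * ((l * x + o) * a' + l * β + b') =
      l * ((p + r * aw) * x + q + r * g) + (p + r * a') * o + r * b' := by
  linear_combination (l * r) * h

/-- value of a linear functional at a near point -/
theorem val_near {p q r x a' bb β : ℝ} (h : (3 - a') * x = (β - bb) ^ 2) :
    p * x + q * (-2 * bb) + r * (x * a' + (-2 * bb) * β + β ^ 2) =
      (p + 3 * r) * x - 2 * q * bb - r * bb ^ 2 := by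
  linear_combination (-r) * h

theorem Par.al_bd (h : Par K M) (b : ℕ) (hb : (b : ℝ) ≤ M) {β : ℝ} (h0 : 0 ≤ β) (h1 : β ≤ M) :
    -(M + 1) ≤ al K b β ∧ al K b β ≤ 0 := by
  have h4 := h.bR b h0 h1
  have h5 : (0 : ℝ) ≤ b := Nat.cast_nonneg b
  unfold al
  constructor <;> linarith [h4.1, h4.2]

theorem Par.aW_bd (h : Par K M) (a : ℕ) (ha : (a : ℝ) ≤ M) (s : Bool) :
    -(M + 1) ≤ aW K a s ∧ aW K a s ≤ 1 := by
  have h3 := abs_le.mp (h.sgK s)
  have h5 : (0 : ℝ) ≤ a := Nat.cast_nonneg a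
  unfold aW
  constructor <;> linarith [h3.1, h3.2]

theorem Par.tau_mul (h : Par K M) (bb : ℝ) (b : ℕ) (hb : (b : ℝ) ≤ M) {β : ℝ}
    (h0 : 0 ≤ β) (h1 : β ≤ M) : (3 - al K b β) * tau K bb b β = (β - bb) ^ 2 := by
  unfold tau
  rw [mul_div_cancel₀]
  have := (h.al_bd b hb h0 h1).2
  linarith

theorem Par.tau_bd (h : Par K M) (bb : ℝ) (hb0 : 0 ≤ bb) (hb1 : bb ≤ M) (b : ℕ)
    (hb : (b : ℝ) ≤ M) {β : ℝ} (h0 : 0 ≤ β) (h1 : β ≤ M) :
    0 ≤ tau K bb b β ∧ tau K bb b β ≤ M ^ 2 := by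
  have h2 := (h.al_bd b hb h0 h1).2
  have h3 : 0 < 3 - al K b β := by linarith
  unfold tau
  constructor
  · positivity
  · rw [div_le_iff₀ h3]
    have h4 : (β - bb) ^ 2 ≤ M ^ 2 := by
      apply sq_le_sq'
      · linarith
      · linarith
    nlinarith [sq_nonneg M]

theorem lv_cases (K : ℝ) (a : ℕ) (s : Bool) :
    (s = true ∧ lv K a s = R K a) ∨ (s = false ∧ lv K a s = G K a) := by
  cases s <;> simp [lv]

theorem Par.lv_ge (h : Par K M) (a : ℕ) (s : Bool) : K ≤ lv K a s := by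
  rcases lv_cases K a s with ⟨-, h1⟩ | ⟨-, h1⟩ <;> rw [h1]
  · exact h.RgeK a
  · exact h.Gge a

theorem Par.lv_lt (h : Par K M) {a b : ℕ} {s s' : Bool} (hl : lv K b s' < lv K a s) :
    (b < a ∨ (b = a ∧ s' = false ∧ s = true)) ∧ K * lv K b s' ≤ lv K a s := by
  have h1 := h.K1000
  have key : ∀ {a b : ℕ} {s s' : Bool}, b < a → K * lv K b s' ≤ lv K a s := by
    intro a b s s' hab
    have h2 := h.hier hab
    have h3 : lv K b s' ≤ R K b := by
      rcases lv_cases K b s' with ⟨-, h1⟩ | ⟨-, h1⟩ <;> rw [h1]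
      linarith [h.GleR b, h.Gpos b]
    have h4 : G K a ≤ lv K a s := by
      rcases lv_cases K a s with ⟨-, h1⟩ | ⟨-, h1⟩ <;> rw [h1]
      linarith [h.GleR a, h.Gpos a]
    have h5 : K * lv K b s' ≤ K * R K b := mul_le_mul_of_nonneg_left h3 h.Kpos.le
    linarith
  rcases lt_trichotomy b a with hab | hab | hab
  · exact ⟨Or.inl hab, key hab⟩
  · subst hab
    cases s <;> cases s' <;> simp only [lv, if_true, if_false, Bool.false_eq_true] at hl ⊢
    · exact absurd hl (lt_irrefl _)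
    · exfalso
      linarith [h.GleR b, h.Gpos b]
    · refine ⟨Or.inr (by simp), ?_⟩
      rw [R_eq]
    · exact absurd hl (lt_irrefl _)
  · exfalso
    have h2 : K * lv K a s ≤ lv K b s' := key hab
    have h3 := h.lv_ge a s
    nlinarith

end

end Pool.Agent.helper8.GK
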