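import Mathlib
import Pool.Agent.helper8.GK.Par

set_option autoImplicit false

/-!
Geometric permutations of `k`-flats: the base configuration of planes in `ℝ³`
(helper file for MP_06d6be_co).  There are `m` near sets and `2 m` far sets, and `m²` planes.
-/

namespace Pool.Agent.helper8.GK

section

variable {K M : ℝ}

/-- value of the functional `(p, q, r)` at a far point -/
noncomputable def vF (K p q r : ℝ) (a : ℕ) (s : Bool) (b : ℕ) (β : ℝ) : ℝ :=
  lv K a s * ((p + r * aW K a s) * xi K a s b β + q + r * (sg s * G K a)) +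
    (p + r * al K b β) * oo K a s b β + r * β ^ 2

/-- value of the functional `(p, q, r)` at a near point -/
noncomputable def vN (K p q r bb : ℝ) (b : ℕ) (β : ℝ) : ℝ :=
  (p + 3 * r) * tau K bb b β - 2 * q * bb - r * bb ^ 2

/-- three near sets -/
theorem sepNNN {b₁ b₂ b₃ : ℝ} (h1 : b₂ + 2 ≤ b₁) (h3 : b₃ + 2 ≤ b₂) (b : ℕ) (β : ℝ) :
    vN K 3 b₂ (-1) b₂ b β < 1 - b₂ ^ 2 ∧ 1 - b₂ ^ 2 < vN K 3 b₂ (-1) b₁ b β ∧
      1 - b₂ ^ 2 < vN K 3 b₂ (-1) b₃ b β := by
  unfold vN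
  refine ⟨?_, ?_, ?_⟩
  · ring_nf
    linarith
  · nlinarith
  · nlinarith

/-- two near sets and a far set -/
theorem sepNNF (h : Par K M) {b₁ b₂ : ℝ} (h0 : 0 ≤ b₂) (h1 : b₂ + 2 ≤ b₁) (h2 : b₁ ≤ M)
    (a : ℕ) (ha : (a : ℝ) ≤ M) (s : Bool) (b : ℕ) (hb : (b : ℝ) ≤ M) {β : ℝ}
    (hβ0 : 0 ≤ β) (hβ1 : β ≤ M) :
    vN K (-(sg s * aW K a s)) (-(8 * M ^ 3)) (sg s) b₂ b β < 8 * M ^ 3 * (b₁ + b₂) ∧
    8 * M ^ 3 * (b₁ + b₂) < vN K (-(sg s * aW K a s)) (-(8 * M ^ 3)) (sg s) b₁ b β ∧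
    8 * M ^ 3 * (b₁ + b₂) < vF K (-(sg s * aW K a s)) (-(8 * M ^ 3)) (sg s) a s b β := by
  have hM := h.one_le
  obtain ⟨hM1, hM2, hM3, hM4⟩ := h.M3
  have haW := h.aW_bd a ha s
  have key : ∀ bb : ℝ, 0 ≤ bb → bb ≤ M →
      |sg s * ((3 - aW K a s) * tau K bb b β - bb ^ 2)| ≤ 7 * M ^ 3 := by
    intro bb hb0 hb1
    obtain ⟨t0, t1⟩ := h.tau_bd bb hb0 hb1 b hb hβ0 hβ1
    have e1 : |sg s * ((3 - aW K a s) * tau K bb b β - bb ^ 2)| =
        |(3 - aW K a s) * tau K bb b β - bb ^ 2| := by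
      rcases sg_cases s with ⟨-, h7⟩ | ⟨-, h7⟩ <;> rw [h7]
      · rw [one_mul]
      · rw [neg_one_mul, abs_neg]
    rw [e1, abs_le]
    have e2 : 0 ≤ (3 - aW K a s) * tau K bb b β := mul_nonneg (by linarith [haW.2]) t0
    have e3 : (3 - aW K a s) * tau K bb b β ≤ (M + 4) * M ^ 2 :=
      mul_le_mul (by linarith [haW.1]) t1 t0 (by linarith)
    have e4 : bb ^ 2 ≤ M ^ 2 := by
      apply sq_le_sq'
      · linarith
      · linarith
    have e5 : (M + 4) * M ^ 2 = M ^ 3 + 4 * M ^ 2 := by ring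
    have e6 : 0 ≤ bb ^ 2 := sq_nonneg _
    constructor <;> linarith
  have e : ∀ bb : ℝ, vN K (-(sg s * aW K a s)) (-(8 * M ^ 3)) (sg s) bb b β =
      sg s * ((3 - aW K a s) * tau K bb b β - bb ^ 2) + 16 * M ^ 3 * bb := by
    intro bb
    unfold vN
    ring
  have hM30 : 0 < M ^ 3 := by positivity
  refine ⟨?_, ?_, ?_⟩
  · rw [e]
    have k1 := (abs_le.mp (key b₂ h0 (by linarith))).2
    nlinarith
  · rw [e]
    have k1 := (abs_le.mp (key b₁ (by linarith) h2)).1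
    nlinarith
  · unfold vF
    have k1 := h.oo_nonneg a s b hβ0
    have k2 := h.lv_ge a s
    have k3 := h.Gge a
    have k4 := h.big
    have k5 : |sg s * β ^ 2| ≤ M ^ 2 := by
      rw [abs_mul, abs_of_nonneg (sq_nonneg β)]
      have : |sg s| = 1 := by
        rcases sg_cases s with ⟨-, h7⟩ | ⟨-, h7⟩ <;> rw [h7] <;> simp
      rw [this, one_mul]
      exact pow_le_pow_left₀ hβ0 hβ1 2
    have k6 := (abs_le.mp k5).1
    have k7 : lv K a s * ((-(sg s * aW K a s) + sg s * aW K a s) * xi K a s b β + -(8 * M ^ 3) +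
        sg s * (sg s * G K a)) = lv K a s * (G K a - 8 * M ^ 3) := by
      have := sg_sq s
      linear_combination lv K a s * G K a * this
    have k8 : (-(sg s * aW K a s) + sg s * al K b β) * oo K a s b β =
        sg s * (al K b β - aW K a s) * oo K a s b β := by ring
    rw [k7, k8]
    have k9 : K * (900 * M ^ 3) ≤ lv K a s * (G K a - 8 * M ^ 3) := by
      apply mul_le_mul k2 (by linarith) (by positivity)
      linarith [h.Kpos]
    have k10 : 1000 * (900 * M ^ 3) ≤ K * (900 * M ^ 3) :=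
      mul_le_mul_of_nonneg_right h.K1000 (by positivity)
    have k11 : 8 * M ^ 3 * (b₁ + b₂) ≤ 8 * M ^ 3 * (2 * M) :=
      mul_le_mul_of_nonneg_left (by linarith) (by positivity)
    have k12 : 8 * M ^ 3 * (2 * M) ≤ 16 * (M * M ^ 3) := by ring_nf; exact le_rfl
    have k13 : M * M ^ 3 * 900000 ≤ K * (900 * M ^ 3) := by
      have := mul_le_mul_of_nonneg_right h.KM (by positivity : (0:ℝ) ≤ 900 * M ^ 3)
      nlinarith
    have k14 : M ^ 3 ≤ M * M ^ 3 := by nlinarith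
    linarith

/-- bound for the position of a far set `(b, s')` relative to a far set `(a, s)` with `b < a` -/
theorem relF (h : Par K M) {a b : ℕ} (hab : b < a) (ha : (a : ℝ) ≤ M) (s s' : Bool)
    (c : ℕ) {β : ℝ} (hβ0 : 0 ≤ β) (hβ1 : β ≤ M) {p : ℝ} (hp : |p| ≤ M + 1) :
    |(p + sg s * aW K b s') * xi K b s' c β + sg s * (sg s' * G K b)| ≤ G K a / 8 := by
  have hM := h.one_le
  obtain ⟨hM1, hM2, hM3, hM4⟩ := h.M3
  have hb : (b : ℝ) ≤ M := by
    have : (b : ℝ) ≤ a := by exact_mod_cast hab.le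
    linarith
  have h1 := h.xi_le b s' c hβ0 hβ1
  have h2 := h.hier hab
  have h3 := h.Rpos b
  have h4 := h.KM
  have haW := h.aW_bd b hb s'
  have e1 : |p + sg s * aW K b s'| ≤ 2 * (M + 1) := by
    have e2 : |sg s * aW K b s'| ≤ M + 1 := by
      rw [abs_mul]
      have : |sg s| = 1 := by
        rcases sg_cases s with ⟨-, h7⟩ | ⟨-, h7⟩ <;> rw [h7] <;> simp
      rw [this, one_mul, abs_le]
      constructor <;> linarith [haW.1, haW.2]
    have := abs_add_le p (sg s * aW K b s')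
    linarith
  have e3 : |(p + sg s * aW K b s') * xi K b s' c β| ≤ 2 * (M + 1) * R K b := by
    rw [abs_mul]
    exact mul_le_mul e1 h1 (abs_nonneg _) (by linarith)
  have e4 : |sg s * (sg s' * G K b)| ≤ R K b := by
    have e5 : |sg s * (sg s' * G K b)| = G K b := by
      rw [abs_mul, abs_mul, abs_of_pos (h.Gpos b)]
      rcases sg_cases s with ⟨-, h7⟩ | ⟨-, h7⟩ <;> rcases sg_cases s' with ⟨-, h8⟩ | ⟨-, h8⟩ <;>
        rw [h7, h8] <;> simp
    rw [e5]
    linarith [h.GleR b, h.Gpos b]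
  have e6 := abs_add_le ((p + sg s * aW K b s') * xi K b s' c β) (sg s * (sg s' * G K b))
  have e7 : (2 * (M + 1) + 1) * R K b ≤ K / 8 * R K b :=
    mul_le_mul_of_nonneg_right (by linarith) h3.le
  linarith

/-- bound for the correction term of a far set -/
theorem relO (h : Par K M) {a b : ℕ} (hab : b < a) (s s' : Bool)
    (c : ℕ) (hc : (c : ℝ) ≤ M) {β : ℝ} (hβ0 : 0 ≤ β) (hβ1 : β ≤ M) {p : ℝ} (hp : |p| ≤ M + 1) :
    |(p + sg s * al K c β) * oo K b s' c β + sg s * β ^ 2| ≤ G K a / 8 := by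
  have hM := h.one_le
  obtain ⟨hM1, hM2, hM3, hM4⟩ := h.M3
  have h1 := h.oo_le b s' c hβ0 hβ1
  have h2 := h.hier hab
  have h3 := h.Rpos b
  have h4 := h.big
  have h5 := h.RgeK b
  have hal := h.al_bd c hc hβ0 hβ1
  have hsg : |sg s| = 1 := by
    rcases sg_cases s with ⟨-, h7⟩ | ⟨-, h7⟩ <;> rw [h7] <;> simp
  have e1 : |p + sg s * al K c β| ≤ 2 * (M + 1) := by
    have e2 : |sg s * al K c β| ≤ M + 1 := by
      rw [abs_mul, hsg, one_mul, abs_le]
      constructor <;> linarith [hal.1, hal.2]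
    have := abs_add_le p (sg s * al K c β)
    linarith
  have e3 : |(p + sg s * al K c β) * oo K b s' c β| ≤ 2 * (M + 1) * (2 * M * R K b) := by
    rw [abs_mul]
    exact mul_le_mul e1 h1 (abs_nonneg _) (by linarith)
  have e4 : |sg s * β ^ 2| ≤ M ^ 2 := by
    rw [abs_mul, hsg, one_mul, abs_of_nonneg (sq_nonneg β)]
    exact pow_le_pow_left₀ hβ0 hβ1 2
  have e6 := abs_add_le ((p + sg s * al K c β) * oo K b s' c β) (sg s * β ^ 2)
  have e7 : 2 * (M + 1) * (2 * M * R K b) ≤ 8 * M ^ 2 * R K b := by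
    have : 2 * (M + 1) * (2 * M) ≤ 8 * M ^ 2 := by nlinarith
    nlinarith
  have e8 : (8 * M ^ 2 + 1) * R K b ≤ K / 8 * R K b :=
    mul_le_mul_of_nonneg_right (by linarith) h3.le
  have e9 : M ^ 2 ≤ R K b := by linarith [h.KM2]
  linarith

/-- a set below, the far set `(b, s')` and the far set `(a, s)`, `b < a`: the two far sets -/
theorem sepFF (h : Par K M) {a b : ℕ} (hab : b < a) (ha : (a : ℝ) ≤ M) (s s' : Bool)
    (c : ℕ) (hc : (c : ℝ) ≤ M) {β : ℝ} (hβ0 : 0 ≤ β) (hβ1 : β ≤ M) {l : ℝ} (hl0 : 0 ≤ l)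
    (hl : K * l ≤ lv K b s') :
    vF K (-(sg s * aW K a s)) (-(G K a / 2)) (sg s) b s' c β < -((l + 1) * G K a) ∧
    -((l + 1) * G K a) < vF K (-(sg s * aW K a s)) (-(G K a / 2)) (sg s) a s c β := by
  have hM := h.one_le
  obtain ⟨hM1, hM2, hM3, hM4⟩ := h.M3
  have haW := h.aW_bd a ha s
  have hsg : |sg s| = 1 := by
    rcases sg_cases s with ⟨-, h7⟩ | ⟨-, h7⟩ <;> rw [h7] <;> simp
  have hp : |-(sg s * aW K a s)| ≤ M + 1 := by
    rw [abs_neg, abs_mul, hsg, one_mul, abs_le]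
    constructor <;> linarith [haW.1, haW.2]
  have hG := h.Gpos a
  constructor
  · have e1 := (abs_le.mp (relF h hab ha s s' c hβ0 hβ1 hp)).2
    have e2 := (abs_le.mp (relO h hab s s' c hc hβ0 hβ1 hp)).2
    unfold vF
    have e3 := h.lv_ge b s'
    have e4 := h.K1000
    have e5 : lv K b s' * ((-(sg s * aW K a s) + sg s * aW K b s') * xi K b s' c β +
        -(G K a / 2) + sg s * (sg s' * G K b)) ≤ lv K b s' * (-(G K a / 4)) := by
      apply mul_le_mul_of_nonneg_left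
      · linarith
      · linarith
    have e6 : 1000 * l ≤ lv K b s' := by
      have := mul_le_mul_of_nonneg_right e4 hl0
      linarith
    have e7 : (8 * l + 8) * (G K a / 4) ≤ lv K b s' * (G K a / 4) :=
      mul_le_mul_of_nonneg_right (by linarith) (by linarith)
    have e8 : 0 ≤ l * G K a := mul_nonneg hl0 hG.le
    linarith
  · unfold vF
    have k1 := h.oo_nonneg a s c hβ0
    have k5 : |sg s * β ^ 2| ≤ M ^ 2 := by
      rw [abs_mul, hsg, one_mul, abs_of_nonneg (sq_nonneg β)]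
      exact pow_le_pow_left₀ hβ0 hβ1 2
    have k6 := (abs_le.mp k5).1
    have k7 : lv K a s * ((-(sg s * aW K a s) + sg s * aW K a s) * xi K a s c β +
        -(G K a / 2) + sg s * (sg s * G K a)) = lv K a s * (G K a / 2) := by
      have := sg_sq s
      linear_combination lv K a s * G K a * this
    have k8 : (-(sg s * aW K a s) + sg s * al K c β) * oo K a s c β =
        sg s * (al K c β - aW K a s) * oo K a s c β := by ring
    rw [k7, k8]
    have k9 : 0 ≤ lv K a s * (G K a / 2) := by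
      have := h.lv_ge a s
      have := h.Kpos
      apply mul_nonneg <;> linarith
    have k10 := h.Gge a
    have k11 := h.KM2
    have k12 : 0 ≤ l * G K a := mul_nonneg hl0 hG.le
    linarith

/-- … and a near set -/
theorem sepFFN (h : Par K M) (a : ℕ) (ha : (a : ℝ) ≤ M) (s : Bool)
    (c : ℕ) (hc : (c : ℝ) ≤ M) {β : ℝ} (hβ0 : 0 ≤ β) (hβ1 : β ≤ M) {bb : ℝ} (hb0 : 0 ≤ bb)
    (hb1 : bb ≤ M) :
    -((0 + 1) * G K a) < vN K (-(sg s * aW K a s)) (-(G K a / 2)) (sg s) bb c β := by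
  have hM := h.one_le
  obtain ⟨hM1, hM2, hM3, hM4⟩ := h.M3
  have haW := h.aW_bd a ha s
  obtain ⟨t0, t1⟩ := h.tau_bd bb hb0 hb1 c hc hβ0 hβ1
  have e1 : |sg s * ((3 - aW K a s) * tau K bb c β - bb ^ 2)| =
      |(3 - aW K a s) * tau K bb c β - bb ^ 2| := by
    rcases sg_cases s with ⟨-, h7⟩ | ⟨-, h7⟩ <;> rw [h7]
    · rw [one_mul]
    · rw [neg_one_mul, abs_neg]
  have e7 : |(3 - aW K a s) * tau K bb c β - bb ^ 2| ≤ 7 * M ^ 3 := by
    rw [abs_le]
    have e2 : 0 ≤ (3 - aW K a s) * tau K bb c β := mul_nonneg (by linarith [haW.2]) t0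
    have e3 : (3 - aW K a s) * tau K bb c β ≤ (M + 4) * M ^ 2 :=
      mul_le_mul (by linarith [haW.1]) t1 t0 (by linarith)
    have e4 : bb ^ 2 ≤ M ^ 2 := by
      apply sq_le_sq'
      · linarith
      · linarith
    have e5 : (M + 4) * M ^ 2 = M ^ 3 + 4 * M ^ 2 := by ring
    have e6 : 0 ≤ bb ^ 2 := sq_nonneg _
    constructor <;> linarith
  rw [← e1] at e7
  have e8 := (abs_le.mp e7).1
  have e9 : vN K (-(sg s * aW K a s)) (-(G K a / 2)) (sg s) bb c β =
      sg s * ((3 - aW K a s) * tau K bb c β - bb ^ 2) + G K a * bb := by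
    unfold vN
    ring
  rw [e9]
  have e10 := h.Gge a
  have e11 := h.big
  have e12 : 0 ≤ G K a * bb := mul_nonneg (h.Gpos a).le hb0
  have e13 : 0 < M ^ 3 := by positivity
  linarith

/-- … and a far set -/
theorem sepFFF (h : Par K M) {a b : ℕ} (hab : b < a) (ha : (a : ℝ) ≤ M) (s s' : Bool)
    (c : ℕ) (hc : (c : ℝ) ≤ M) {β : ℝ} (hβ0 : 0 ≤ β) (hβ1 : β ≤ M) :
    -((lv K b s' + 1) * G K a) < vF K (-(sg s * aW K a s)) (-(G K a / 2)) (sg s) b s' c β := by
  have hM := h.one_le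
  have haW := h.aW_bd a ha s
  have hsg : |sg s| = 1 := by
    rcases sg_cases s with ⟨-, h7⟩ | ⟨-, h7⟩ <;> rw [h7] <;> simp
  have hp : |-(sg s * aW K a s)| ≤ M + 1 := by
    rw [abs_neg, abs_mul, hsg, one_mul, abs_le]
    constructor <;> linarith [haW.1, haW.2]
  have hG := h.Gpos a
  have e1 := (abs_le.mp (relF h hab ha s s' c hβ0 hβ1 hp)).1
  have e2 := (abs_le.mp (relO h hab s s' c hc hβ0 hβ1 hp)).1
  unfold vF
  have e3 := h.lv_ge b s'
  have e4 := h.K1000
  have e5 : lv K b s' * (-(3 * G K a / 4)) ≤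
      lv K b s' * ((-(sg s * aW K a s) + sg s * aW K b s') * xi K b s' c β +
      -(G K a / 2) + sg s * (sg s' * G K b)) := by
    apply mul_le_mul_of_nonneg_left
    · linarith
    · linarith
  have e6 : 0 ≤ lv K b s' * G K a := by
    apply mul_nonneg <;> linarith
  linarith

end

end Pool.Agent.helper8.GK
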