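import Mathlib
import Pool.Agent.helper8.GK.Base

set_option autoImplicit false

/-!
Geometric permutations of `k`-flats: the two far sets of one wall (helper file for MP_06d6be_co).
-/

namespace Pool.Agent.helper8.GK

section

variable {K M : ℝ}

/-- the small tilt of the separating planes of wall `a` -/
noncomputable def th (K M : ℝ) (a : ℕ) : ℝ := 1 / (4 * (G K a + 2 * M))

theorem Par.th_pos (h : Par K M) (a : ℕ) : 0 < th K M a := by
  have h1 := h.Gpos a
  have h2 := h.one_le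
  unfold th
  positivity

theorem Par.th_mul (h : Par K M) (a : ℕ) : (G K a + 2 * M) * th K M a = 1 / 4 := by
  have h1 := h.Gpos a
  have h2 := h.one_le
  unfold th
  have : G K a + 2 * M ≠ 0 := by positivity
  field_simp

theorem Par.th_le (h : Par K M) (a : ℕ) : th K M a ≤ 1 / 4 := by
  have h1 := h.th_mul a
  have h2 := h.th_pos a
  have h3 := h.Gge a
  have h4 := h.K1000
  have h5 := h.one_le
  nlinarith

theorem Par.R_th (h : Par K M) (a : ℕ) : 100 * M ^ 2 ≤ R K a * th K M a := by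
  have h1 := h.th_mul a
  have h2 := h.th_pos a
  have h3 := h.Gge a
  have h4 := h.KM2
  have h5 := h.one_le
  have h6 := h.KM
  rw [R_eq]
  have h7 : G K a + 2 * M ≤ 2 * G K a := by linarith
  have h8 : 1 / 4 ≤ 2 * G K a * th K M a := by
    rw [← h1]
    exact mul_le_mul_of_nonneg_right h7 h2.le
  have h9 : K * (1 / 4) ≤ K * (2 * G K a * th K M a) := mul_le_mul_of_nonneg_left h8 h.Kpos.le
  linarith

/-- The far sets of wall `a`.  Let `P` be a plane `z = α x + β' y + c` with
`α = -a + (g - th) / R`: it passes near the common direction of the two far sets.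
Here `u = g + κ` where ... -/
theorem wall_own (h : Par K M) (a : ℕ) (s : Bool) {β : ℝ} (hβ0 : 0 ≤ β) (hβ1 : β ≤ M) (w : ℝ) :
    vF K ((a : ℝ) + (w + th K M a) / R K a) (-w) 1 a s a β =
      lv K a s * th K M a + (w + th K M a - β) * ((1 - sg s) * β) + β ^ 2 := by
  have hR := (h.Rpos a).ne'
  have hG := (h.Gpos a).ne'
  have hK := h.Kpos.ne'
  unfold vF
  rw [h.xi_own a s hβ0 hβ1]
  unfold oo al aW
  rw [if_pos rfl]
  have e1 : ((a : ℝ) + (w + th K M a) / R K a + 1 * (-(a : ℝ) - sg s / K)) * R K a + -w +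
      1 * (sg s * G K a) = th K M a := by
    rw [R_eq] at *
    field_simp
    ring
  rw [e1]
  have e2 : ((a : ℝ) + (w + th K M a) / R K a + 1 * (-(a : ℝ) - β / R K a)) *
      ((1 - sg s) * β * R K a) = (w + th K M a - β) * ((1 - sg s) * β) := by
    field_simp
    ring
  rw [e2]
  ring

/-- the far sets of wall `a` on the planes of the other walls -/
theorem wall_other (h : Par K M) (a : ℕ) (s : Bool) (b : ℕ) (hab : b ≠ a) {β : ℝ}
    (hβ0 : 0 ≤ β) (hβ1 : β ≤ M) (w : ℝ) (hw0 : -(G K a / 2) ≤ w) (hw1 : w ≤ M) :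
    ∃ u : ℝ, G K a / 4 ≤ u ∧
    vF K ((a : ℝ) + (w + th K M a) / R K a) (-w) 1 a s b β =
      sg s * (lv K a s * u) + β ^ 2 := by
  have hR := (h.Rpos a).ne'
  have hG := (h.Gpos a).ne'
  have hK := h.Kpos.ne'
  have hx := h.xi_other a s b hab hβ0 hβ1
  -- `x = xi / R` is small
  obtain ⟨x, hx1, hx2⟩ : ∃ x : ℝ, xi K a s b β = x * R K a ∧ |x| ≤ 1 / 250 := by
    refine ⟨xi K a s b β / R K a, by field_simp, ?_⟩
    rw [abs_div, abs_of_pos (h.Rpos a), div_le_iff₀ (h.Rpos a)]
    linarith [h.GleR a]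
  have ht0 := h.th_pos a
  have ht1 := h.th_le a
  have hGK := h.Gge a
  have hKM := h.KM
  have hM := h.one_le
  -- the bracket
  have e1 : ((a : ℝ) + (w + th K M a) / R K a + 1 * aW K a s) * xi K a s b β + -w +
      1 * (sg s * G K a) = (sg s * G K a - w) * (1 - x) + th K M a * x := by
    rw [hx1]
    unfold aW
    rw [R_eq] at *
    field_simp
    ring
  have e2 : oo K a s b β = 0 := by
    unfold oo
    rw [if_neg hab]
  obtain ⟨x1, x2⟩ := abs_le.mp hx2
  rcases sg_cases s with ⟨hs, h7⟩ | ⟨hs, h7⟩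
  · refine ⟨(G K a - w) * (1 - x) + th K M a * x, ?_, ?_⟩
    · nlinarith
    · unfold vF
      rw [e1, e2, h7]
      ring
  · refine ⟨(G K a + w) * (1 - x) - th K M a * x, ?_, ?_⟩
    · nlinarith
    · unfold vF
      rw [e1, e2, h7]
      ring

/-- zigzag: a near set and the two far sets of wall `a` -/
theorem sepW (h : Par K M) (a : ℕ) {bb : ℝ} (hb0 : 0 ≤ bb) (hb1 : bb ≤ M)
    (b : ℕ) (hb : (b : ℝ) ≤ M) {β : ℝ} (hβ0 : 0 ≤ β) (hβ1 : β ≤ M) (hne : 1 ≤ (β - bb) ^ 2) :
    vF K ((a : ℝ) + (bb + th K M a) / R K a) (-bb) 1 a false b β < bb ^ 2 - 1 / 2 ∧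
    bb ^ 2 - 1 / 2 < vN K ((a : ℝ) + (bb + th K M a) / R K a) (-bb) 1 bb b β ∧
    bb ^ 2 - 1 / 2 < vF K ((a : ℝ) + (bb + th K M a) / R K a) (-bb) 1 a true b β := by
  have hM := h.one_le
  have ht0 := h.th_pos a
  have ht1 := h.th_le a
  have hG := h.Gpos a
  have hGK := h.Gge a
  have hKM := h.KM
  have hKM2 := h.KM2
  have hR := h.Rpos a
  have hmul := h.th_mul a
  have hRth := h.R_th a
  have hw0 : -(G K a / 2) ≤ bb := by linarith
  have hβ2 : β ^ 2 ≤ M ^ 2 := pow_le_pow_left₀ hβ0 hβ1 2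
  have hb2 : bb ^ 2 ≤ M ^ 2 := pow_le_pow_left₀ hb0 hb1 2
  have hM2 : 1 ≤ M ^ 2 := one_le_pow₀ hM
  refine ⟨?_, ?_, ?_⟩
  · rcases eq_or_ne b a with rfl | hab
    · rw [wall_own h b false hβ0 hβ1]
      simp only [sg, lv, Bool.false_eq_true, if_false]
      nlinarith
    · obtain ⟨u, hu, hv⟩ := wall_other h a false b hab hβ0 hβ1 bb hw0 hb1
      rw [hv]
      simp only [sg, lv, Bool.false_eq_true, if_false]
      have h1 : G K a * (G K a / 4) ≤ G K a * u := mul_le_mul_of_nonneg_left hu hG.le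
      have h2 : 1000 * G K a ≤ G K a * G K a :=
        mul_le_mul_of_nonneg_right (by linarith [h.K1000]) hG.le
      have h3 : 0 ≤ bb ^ 2 := sq_nonneg _
      linarith
  · unfold vN
    obtain ⟨t0, t1⟩ := h.tau_bd bb hb0 hb1 b hb hβ0 hβ1
    have e1 : 0 ≤ ((a : ℝ) + (bb + th K M a) / R K a + 3 * 1) * tau K bb b β := by
      apply mul_nonneg _ t0
      positivity
    nlinarith
  · rcases eq_or_ne b a with rfl | hab
    · rw [wall_own h b true hβ0 hβ1]
      simp only [sg, lv, if_true]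
      nlinarith
    · obtain ⟨u, hu, hv⟩ := wall_other h a true b hab hβ0 hβ1 bb hw0 hb1
      rw [hv]
      simp only [sg, lv, if_true]
      have h1 : R K a * (G K a / 4) ≤ R K a * u := mul_le_mul_of_nonneg_left hu hR.le
      have h2 : 1000 * G K a ≤ R K a * (G K a / 4) := by
        have h4 : (4000 : ℝ) ≤ R K a := by linarith [h.GleR a, h.K1000]
        nlinarith
      have h3 : 0 ≤ β ^ 2 := sq_nonneg _
      linarith

/-- a lower far set and the two far sets of wall `a` -/
theorem sepWF (h : Par K M) {a b : ℕ} (hab : b < a) (ha : (a : ℝ) ≤ M) (s' : Bool)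
    (c : ℕ) (hc : (c : ℝ) ≤ M) {β : ℝ} (hβ0 : 0 ≤ β) (hβ1 : β ≤ M) :
    vF K ((a : ℝ) + (-(G K a / 2) + th K M a) / R K a) (-(-(G K a / 2))) 1 a false c β < 1 ∧
    1 < vF K ((a : ℝ) + (-(G K a / 2) + th K M a) / R K a) (-(-(G K a / 2))) 1 b s' c β ∧
    1 < vF K ((a : ℝ) + (-(G K a / 2) + th K M a) / R K a) (-(-(G K a / 2))) 1 a true c β := by
  have hM := h.one_le
  have ht0 := h.th_pos a
  have ht1 := h.th_le a
  have hG := h.Gpos a
  have hGK := h.Gge a
  have hKM := h.KM
  have hKM2 := h.KM2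
  have hR := h.Rpos a
  have hmul := h.th_mul a
  have hRth := h.R_th a
  have hw1 : -(G K a / 2) ≤ M := by linarith
  have hβ2 : β ^ 2 ≤ M ^ 2 := pow_le_pow_left₀ hβ0 hβ1 2
  have hM2 : 1 ≤ M ^ 2 := one_le_pow₀ hM
  refine ⟨?_, ?_, ?_⟩
  · rcases eq_or_ne c a with rfl | hca
    · rw [wall_own h c false hβ0 hβ1]
      simp only [sg, lv, Bool.false_eq_true, if_false]
      have h1 : 0 ≤ β * G K c := mul_nonneg hβ0 hG.le
      nlinarith
    · obtain ⟨u, hu, hv⟩ := wall_other h a false c hca hβ0 hβ1 (-(G K a / 2)) le_rfl hw1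
      rw [hv]
      simp only [sg, lv, Bool.false_eq_true, if_false]
      have h1 : G K a * (G K a / 4) ≤ G K a * u := mul_le_mul_of_nonneg_left hu hG.le
      have h2 : 1000 * G K a ≤ G K a * G K a :=
        mul_le_mul_of_nonneg_right (by linarith [h.K1000]) hG.le
      linarith
  · -- the lower far set
    have hsl : |(a : ℝ) + (-(G K a / 2) + th K M a) / R K a| ≤ M + 1 := by
      have h0 : (0 : ℝ) ≤ a := Nat.cast_nonneg a
      have h1 : |(-(G K a / 2) + th K M a) / R K a| ≤ 1 := by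
        rw [abs_div, abs_of_pos hR, div_le_one hR, abs_le]
        constructor <;> linarith [h.GleR a, h.K1000]
      have h2 := abs_add_le (a : ℝ) ((-(G K a / 2) + th K M a) / R K a)
      rw [abs_of_nonneg h0] at h2
      linarith
    have e1 := (abs_le.mp (relF h hab ha true s' c hβ0 hβ1 hsl)).1
    have e2 := (abs_le.mp (relO h hab true s' c hc hβ0 hβ1 hsl)).1
    have hs1 : sg true = 1 := by simp [sg]
    rw [hs1] at e1 e2
    unfold vF
    have e3 := h.lv_ge b s'
    have e4 := h.K1000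
    have e5 : lv K b s' * (G K a / 4) ≤
        lv K b s' * (((a : ℝ) + (-(G K a / 2) + th K M a) / R K a + 1 * aW K b s') *
          xi K b s' c β + -(-(G K a / 2)) + 1 * (sg s' * G K b)) := by
      apply mul_le_mul_of_nonneg_left
      · linarith
      · linarith
    have e6 : 1000 * (G K a / 4) ≤ lv K b s' * (G K a / 4) :=
      mul_le_mul_of_nonneg_right (by linarith) (by linarith)
    linarith
  · rcases eq_or_ne c a with rfl | hca
    · rw [wall_own h c true hβ0 hβ1]
      simp only [sg, lv, if_true]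
      nlinarith
    · obtain ⟨u, hu, hv⟩ := wall_other h a true c hca hβ0 hβ1 (-(G K a / 2)) le_rfl hw1
      rw [hv]
      simp only [sg, lv, if_true]
      have h1 : R K a * (G K a / 4) ≤ R K a * u := mul_le_mul_of_nonneg_left hu hR.le
      have h2 : 1000 * G K a ≤ R K a * (G K a / 4) := by
        have h4 : (4000 : ℝ) ≤ R K a := by linarith [h.GleR a, h.K1000]
        nlinarith
      have h3 : 0 ≤ β ^ 2 := sq_nonneg _
      linarith [h.K1000]

end

end Pool.Agent.helper8.GK
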