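import Mathlib
import Pool.Agent.helper8.GK.Wall

set_option autoImplicit false

/-!
Geometric permutations of `k`-flats: the base configuration of planes in `ℝ³`, assembled
(helper file for MP_06d6be_co).
-/

namespace Pool.Agent.helper8.GK

/-- the functional `(x, y, z) ↦ p x + q y + r z` -/
noncomputable def fun3 (p q r : ℝ) : (ℝ × ℝ × ℝ) →ₗ[ℝ] ℝ :=
  p • LinearMap.fst ℝ ℝ (ℝ × ℝ) + q • (LinearMap.fst ℝ ℝ ℝ ∘ₗ LinearMap.snd ℝ ℝ (ℝ × ℝ)) +
    r • (LinearMap.snd ℝ ℝ ℝ ∘ₗ LinearMap.snd ℝ ℝ (ℝ × ℝ))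

theorem fun3_apply (p q r x y a b c : ℝ) :
    fun3 p q r (ptY x y a b c) = p * x + q * y + r * (x * a + y * b + c) := by
  simp [fun3, ptY]

section

variable {K M : ℝ}

theorem fun3_far (h : Par K M) (p q r : ℝ) (a : ℕ) (s : Bool) (b : ℕ) {β : ℝ} (h0 : 0 ≤ β)
    (h1 : β ≤ M) :
    fun3 p q r (ptY (lv K a s * xi K a s b β + oo K a s b β) (lv K a s) (al K b β) β (β ^ 2)) =
      vF K p q r a s b β := by
  rw [fun3_apply]
  unfold vF
  exact val_far (h.xi_mul a s b h0 h1)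

theorem fun3_near (h : Par K M) (p q r : ℝ) (bb : ℝ) (b : ℕ) (hb : (b : ℝ) ≤ M) {β : ℝ}
    (h0 : 0 ≤ β) (h1 : β ≤ M) :
    fun3 p q r (ptY (tau K bb b β) (-2 * bb) (al K b β) β (β ^ 2)) = vN K p q r bb b β := by
  rw [fun3_apply]
  unfold vN
  exact val_near (h.tau_mul bb b hb h0 h1)

end

/-- opposite orientation at two planes on different sides of the slope of a separating functional -/
theorem dtY_neg {p q r c x₁ y₁ x₂ y₂ x₃ y₃ a b g x₁' x₂' x₃' a' b' g' : ℝ}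
    (h12 : y₁ < y₂) (h23 : y₂ < y₃)
    (f1 : c < fun3 p q r (ptY x₁ y₁ a b g)) (f2 : fun3 p q r (ptY x₂ y₂ a b g) < c)
    (f3 : c < fun3 p q r (ptY x₃ y₃ a b g))
    (f1' : c < fun3 p q r (ptY x₁' y₁ a' b' g')) (f2' : fun3 p q r (ptY x₂' y₂ a' b' g') < c)
    (f3' : c < fun3 p q r (ptY x₃' y₃ a' b' g'))
    (ha : (p + r * a) * (p + r * a') < 0) :
    dtY x₁ y₁ x₂ y₂ x₃ y₃ * dtY x₁' y₁ x₂' y₂ x₃' y₃ < 0 := by
  rw [fun3_apply] at f1 f2 f3 f1' f2' f3'
  unfold dtY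
  -- `(p + r a) * dt < 0`
  have key : ∀ {x₁ x₂ x₃ a b g : ℝ}, c < p * x₁ + q * y₁ + r * (x₁ * a + y₁ * b + g) →
      p * x₂ + q * y₂ + r * (x₂ * a + y₂ * b + g) < c →
      c < p * x₃ + q * y₃ + r * (x₃ * a + y₃ * b + g) →
      (p + r * a) * ((x₂ - x₁) * (y₃ - y₁) - (x₃ - x₁) * (y₂ - y₁)) < 0 := by
    intro x₁ x₂ x₃ a b g g1 g2 g3
    have e : (p + r * a) * ((x₂ - x₁) * (y₃ - y₁) - (x₃ - x₁) * (y₂ - y₁)) =
        (y₃ - y₁) * (p * x₂ + q * y₂ + r * (x₂ * a + y₂ * b + g) - c) -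
        (y₃ - y₂) * (p * x₁ + q * y₁ + r * (x₁ * a + y₁ * b + g) - c) -
        (y₂ - y₁) * (p * x₃ + q * y₃ + r * (x₃ * a + y₃ * b + g) - c) := by ring
    rw [e]
    have h1 : (y₃ - y₁) * (p * x₂ + q * y₂ + r * (x₂ * a + y₂ * b + g) - c) < 0 :=
      mul_neg_of_pos_of_neg (by linarith) (by linarith)
    have h2 : 0 < (y₃ - y₂) * (p * x₁ + q * y₁ + r * (x₁ * a + y₁ * b + g) - c) :=
      mul_pos (by linarith) (by linarith)
    have h3 : 0 < (y₂ - y₁) * (p * x₃ + q * y₃ + r * (x₃ * a + y₃ * b + g) - c) :=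
      mul_pos (by linarith) (by linarith)
    linarith
  have k1 := key f1 f2 f3
  have k2 := key f1' f2' f3'
  set D := (x₂ - x₁) * (y₃ - y₁) - (x₃ - x₁) * (y₂ - y₁)
  set D' := (x₂' - x₁') * (y₃ - y₁) - (x₃' - x₁') * (y₂ - y₁)
  have k3 : 0 < ((p + r * a) * D) * ((p + r * a') * D') := mul_pos_of_neg_of_neg k1 k2
  have k4 : ((p + r * a) * D) * ((p + r * a') * D') =
      ((p + r * a) * (p + r * a')) * (D * D') := by ring
  rw [k4] at k3
  exact neg_of_mul_pos_right k3 ha.le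

/-- the base configuration: `3 m` sets, `m²` planes of `ℝ³` -/
theorem GoodY_base (m : ℕ) : GoodY ℝ (Fin m ⊕ (Fin m × Bool)) (Fin m × Fin m) := by
  set M : ℝ := 2 * m + 1 with hMdef
  set K : ℝ := 1000 * M ^ 3 with hKdef
  have hm0 : (0 : ℝ) ≤ m := Nat.cast_nonneg m
  have h : Par K M := ⟨by rw [hMdef]; linarith, le_rfl⟩
  -- the parameters
  have hw : ∀ a : Fin m, ((a : ℕ) : ℝ) ≤ M := by
    intro a
    have : ((a : ℕ) : ℝ) ≤ m := by exact_mod_cast a.isLt.le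
    rw [hMdef]
    linarith
  obtain ⟨be, hbe⟩ : ∃ be : Fin m → ℝ, ∀ j, be j = 2 * ((j : ℕ) : ℝ) + 1 := ⟨_, fun _ => rfl⟩
  have hbe0 : ∀ j, 0 ≤ be j := by
    intro j
    rw [hbe]
    positivity
  have hbe1 : ∀ j, be j ≤ M := by
    intro j
    have : ((j : ℕ) : ℝ) ≤ m := by exact_mod_cast j.isLt.le
    rw [hbe, hMdef]
    linarith
  obtain ⟨bb, hbb⟩ : ∃ bb : Fin m → ℝ, ∀ j, bb j = 2 * ((j : ℕ) : ℝ) := ⟨_, fun _ => rfl⟩
  have hbb0 : ∀ j, 0 ≤ bb j := by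
    intro j
    rw [hbb]
    positivity
  have hbb1 : ∀ j, bb j ≤ M := by
    intro j
    have : ((j : ℕ) : ℝ) ≤ m := by exact_mod_cast j.isLt.le
    rw [hbb, hMdef]
    linarith
  have hbbgap : ∀ i j : Fin m, -2 * bb i < -2 * bb j → bb j + 2 ≤ bb i := by
    intro i j hij
    rw [hbb, hbb] at hij ⊢
    have h1 : ((j : ℕ) : ℝ) < ((i : ℕ) : ℝ) := by linarith
    have h2 : (j : ℕ) + 1 ≤ (i : ℕ) := by exact_mod_cast h1
    have h3 : ((j : ℕ) : ℝ) + 1 ≤ ((i : ℕ) : ℝ) := by exact_mod_cast h2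
    linarith
  have hne : ∀ i j : Fin m, 1 ≤ (be i - bb j) ^ 2 := by
    intro i j
    rw [hbe, hbb]
    have h1 : (2 * (i : ℕ) : ℤ) + 1 - 2 * (j : ℕ) ≠ 0 := by omega
    have h2 : (1 : ℤ) ≤ ((2 * (i : ℕ) : ℤ) + 1 - 2 * (j : ℕ)) ^ 2 := by
      have := Int.one_le_abs h1
      rw [← sq_abs]
      nlinarith
    exact_mod_cast h2
  -- levels of far sets are positive
  have hlv : ∀ (a : ℕ) (s : Bool), K ≤ lv K a s := h.lv_ge
  have hKpos := h.Kpos
  refine ⟨Sum.elim (fun s => -2 * bb s) (fun p => lv K p.1 p.2),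
    fun t => Sum.elim (fun s => tau K (bb s) t.1 (be t.2))
      (fun p => lv K p.1 p.2 * xi K p.1 p.2 t.1 (be t.2) + oo K p.1 p.2 t.1 (be t.2)),
    fun t => al K t.1 (be t.2), fun t => be t.2, fun t => be t.2 ^ 2, ?_, ?_, ?_⟩
  · -- levels are different
    rintro (i | ⟨a, s⟩) (j | ⟨b, s'⟩) hij
    · simp only [Sum.elim_inl, hbb] at hij
      have h1 : ((i : ℕ) : ℝ) = ((j : ℕ) : ℝ) := by linarith
      have h2 : (i : ℕ) = (j : ℕ) := by exact_mod_cast h1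
      rw [Fin.ext h2]
    · exfalso
      simp only [Sum.elim_inl, Sum.elim_inr] at hij
      linarith [hbb0 i, hlv b s']
    · exfalso
      simp only [Sum.elim_inl, Sum.elim_inr] at hij
      linarith [hbb0 j, hlv a s]
    · simp only [Sum.elim_inr] at hij
      have h1 : (a : ℕ) = (b : ℕ) ∧ s = s' := by
        rcases lt_trichotomy (a : ℕ) (b : ℕ) with hab | hab | hab
        · exfalso
          have h2 := h.hier hab
          have h3 : lv K a s ≤ R K a := by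
            rcases lv_cases K a s with ⟨-, h1⟩ | ⟨-, h1⟩ <;> rw [h1]
            linarith [h.GleR a, h.Gpos a]
          have h4 : G K b ≤ lv K b s' := by
            rcases lv_cases K b s' with ⟨-, h1⟩ | ⟨-, h1⟩ <;> rw [h1]
            linarith [h.GleR b, h.Gpos b]
          have h5 := h.Rpos a
          have h6 := h.K1000
          nlinarith
        · refine ⟨hab, ?_⟩
          rw [hab] at hij
          have h2 := h.GleR b
          have h3 := h.Gpos b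
          cases s <;> cases s' <;> simp only [lv, if_true, if_false, Bool.false_eq_true] at hij ⊢
          · linarith
          · linarith
        · exfalso
          have h2 := h.hier hab
          have h3 : lv K b s' ≤ R K b := by
            rcases lv_cases K b s' with ⟨-, h1⟩ | ⟨-, h1⟩ <;> rw [h1]
            linarith [h.GleR b, h.Gpos b]
          have h4 : G K a ≤ lv K a s := by
            rcases lv_cases K a s with ⟨-, h1⟩ | ⟨-, h1⟩ <;> rw [h1]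
            linarith [h.GleR a, h.Gpos a]
          have h5 := h.Rpos b
          have h6 := h.K1000
          nlinarith
      rw [Fin.ext h1.1, h1.2]
  · -- separation
    rintro (i | ⟨a₁, s₁⟩) (j | ⟨a₂, s₂⟩) (k | ⟨a₃, s₃⟩) hij hjk
    · -- near, near, near
      simp only [Sum.elim_inl] at hij hjk ⊢
      have g1 := hbbgap i j hij
      have g2 := hbbgap j k hjk
      refine ⟨fun3 3 (bb j) (-1), 1 - bb j ^ 2, fun t => ?_, fun t => ?_, fun t => ?_⟩
      · rw [fun3_near h _ _ _ _ _ (hw t.1) (hbe0 _) (hbe1 _)]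
        exact (sepNNN g1 g2 t.1 (be t.2)).1
      · rw [fun3_near h _ _ _ _ _ (hw t.1) (hbe0 _) (hbe1 _)]
        exact (sepNNN g1 g2 t.1 (be t.2)).2.1
      · rw [fun3_near h _ _ _ _ _ (hw t.1) (hbe0 _) (hbe1 _)]
        exact (sepNNN g1 g2 t.1 (be t.2)).2.2
    · -- near, near, far
      simp only [Sum.elim_inl, Sum.elim_inr] at hij hjk ⊢
      have g1 := hbbgap i j hij
      refine ⟨fun3 (-(sg s₃ * aW K a₃ s₃)) (-(8 * M ^ 3)) (sg s₃), 8 * M ^ 3 * (bb i + bb j),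
        fun t => ?_, fun t => ?_, fun t => ?_⟩
      · rw [fun3_near h _ _ _ _ _ (hw t.1) (hbe0 _) (hbe1 _)]
        exact (sepNNF h (hbb0 j) g1 (hbb1 i) a₃ (hw a₃) s₃ t.1 (hw t.1) (hbe0 _) (hbe1 _)).1
      · rw [fun3_near h _ _ _ _ _ (hw t.1) (hbe0 _) (hbe1 _)]
        exact (sepNNF h (hbb0 j) g1 (hbb1 i) a₃ (hw a₃) s₃ t.1 (hw t.1) (hbe0 _) (hbe1 _)).2.1
      · rw [fun3_far h _ _ _ _ _ _ (hbe0 _) (hbe1 _)]
        exact (sepNNF h (hbb0 j) g1 (hbb1 i) a₃ (hw a₃) s₃ t.1 (hw t.1) (hbe0 _) (hbe1 _)).2.2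
    · exfalso
      simp only [Sum.elim_inl, Sum.elim_inr] at hjk
      linarith [hbb0 k, hlv a₂ s₂]
    · -- near, far, far
      simp only [Sum.elim_inl, Sum.elim_inr] at hij hjk ⊢
      obtain ⟨hcase, hlevel⟩ := h.lv_lt hjk
      rcases hcase with hab | ⟨hab, hs2, hs3⟩
      · have hk0 : K * 0 ≤ lv K a₂ s₂ := by
          rw [mul_zero]
          linarith [hlv a₂ s₂]
        refine ⟨fun3 (-(sg s₃ * aW K a₃ s₃)) (-(G K a₃ / 2)) (sg s₃), -((0 + 1) * G K a₃),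
          fun t => ?_, fun t => ?_, fun t => ?_⟩
        · rw [fun3_far h _ _ _ _ _ _ (hbe0 _) (hbe1 _)]
          exact (sepFF h hab (hw a₃) s₃ s₂ t.1 (hw t.1) (hbe0 _) (hbe1 _) le_rfl hk0).1
        · rw [fun3_near h _ _ _ _ _ (hw t.1) (hbe0 _) (hbe1 _)]
          exact sepFFN h a₃ (hw a₃) s₃ t.1 (hw t.1) (hbe0 _) (hbe1 _) (hbb0 i) (hbb1 i)
        · rw [fun3_far h _ _ _ _ _ _ (hbe0 _) (hbe1 _)]
          exact (sepFF h hab (hw a₃) s₃ s₂ t.1 (hw t.1) (hbe0 _) (hbe1 _) le_rfl hk0).2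
      · have hab' : a₂ = a₃ := Fin.ext hab
        subst hab' hs2 hs3
        refine ⟨fun3 (((a₂ : ℕ) : ℝ) + (bb i + th K M a₂) / R K a₂) (-bb i) 1, bb i ^ 2 - 1 / 2,
          fun t => ?_, fun t => ?_, fun t => ?_⟩
        · rw [fun3_far h _ _ _ _ _ _ (hbe0 _) (hbe1 _)]
          exact (sepW h a₂ (hbb0 i) (hbb1 i) t.1 (hw t.1) (hbe0 _) (hbe1 _) (hne t.2 i)).1
        · rw [fun3_near h _ _ _ _ _ (hw t.1) (hbe0 _) (hbe1 _)]
          exact (sepW h a₂ (hbb0 i) (hbb1 i) t.1 (hw t.1) (hbe0 _) (hbe1 _) (hne t.2 i)).2.1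
        · rw [fun3_far h _ _ _ _ _ _ (hbe0 _) (hbe1 _)]
          exact (sepW h a₂ (hbb0 i) (hbb1 i) t.1 (hw t.1) (hbe0 _) (hbe1 _) (hne t.2 i)).2.2
    · exfalso
      simp only [Sum.elim_inl, Sum.elim_inr] at hij
      linarith [hbb0 j, hlv a₁ s₁]
    · exfalso
      simp only [Sum.elim_inl, Sum.elim_inr] at hij
      linarith [hbb0 j, hlv a₁ s₁]
    · exfalso
      simp only [Sum.elim_inl, Sum.elim_inr] at hjk
      linarith [hbb0 k, hlv a₂ s₂]
    · -- far, far, far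
      simp only [Sum.elim_inr] at hij hjk ⊢
      obtain ⟨hcase, hlevel⟩ := h.lv_lt hjk
      obtain ⟨hcase', hlevel'⟩ := h.lv_lt hij
      rcases hcase with hab | ⟨hab, hs2, hs3⟩
      · have h12 : (a₁ : ℕ) < (a₃ : ℕ) := by
          rcases hcase' with h3 | ⟨h3, -, -⟩
          · exact h3.trans hab
          · rw [h3]
            exact hab
        have hk0 : (0 : ℝ) ≤ lv K a₁ s₁ := by linarith [hlv a₁ s₁]
        refine ⟨fun3 (-(sg s₃ * aW K a₃ s₃)) (-(G K a₃ / 2)) (sg s₃), -((lv K a₁ s₁ + 1) * G K a₃),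
          fun t => ?_, fun t => ?_, fun t => ?_⟩
        · rw [fun3_far h _ _ _ _ _ _ (hbe0 _) (hbe1 _)]
          exact (sepFF h hab (hw a₃) s₃ s₂ t.1 (hw t.1) (hbe0 _) (hbe1 _) hk0 hlevel').1
        · rw [fun3_far h _ _ _ _ _ _ (hbe0 _) (hbe1 _)]
          exact sepFFF h h12 (hw a₃) s₃ s₁ t.1 (hw t.1) (hbe0 _) (hbe1 _)
        · rw [fun3_far h _ _ _ _ _ _ (hbe0 _) (hbe1 _)]
          exact (sepFF h hab (hw a₃) s₃ s₂ t.1 (hw t.1) (hbe0 _) (hbe1 _) hk0 hlevel').2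
      · have hab' : a₂ = a₃ := Fin.ext hab
        subst hab' hs2 hs3
        have h12 : (a₁ : ℕ) < (a₂ : ℕ) := by
          rcases hcase' with h3 | ⟨-, -, h3⟩
          · exact h3
          · exact absurd h3 (by simp)
        refine ⟨fun3 (((a₂ : ℕ) : ℝ) + (-(G K a₂ / 2) + th K M a₂) / R K a₂)
          (-(-(G K a₂ / 2))) 1, 1, fun t => ?_, fun t => ?_, fun t => ?_⟩
        · rw [fun3_far h _ _ _ _ _ _ (hbe0 _) (hbe1 _)]
          exact (sepWF h h12 (hw a₂) s₁ t.1 (hw t.1) (hbe0 _) (hbe1 _)).1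
        · rw [fun3_far h _ _ _ _ _ _ (hbe0 _) (hbe1 _)]
          exact (sepWF h h12 (hw a₂) s₁ t.1 (hw t.1) (hbe0 _) (hbe1 _)).2.1
        · rw [fun3_far h _ _ _ _ _ _ (hbe0 _) (hbe1 _)]
          exact (sepWF h h12 (hw a₂) s₁ t.1 (hw t.1) (hbe0 _) (hbe1 _)).2.2
  · -- different orders
    have key : ∀ t t' : Fin m × Fin m, ((t'.1 : ℕ) < (t.1 : ℕ) ∨ (t'.1 = t.1 ∧ (t'.2 : ℕ) < t.2)) →
        dtY (tau K (bb t.2) t.1 (be t.2)) (-2 * bb t.2)
          (lv K t.1 false * xi K t.1 false t.1 (be t.2) + oo K t.1 false t.1 (be t.2))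
          (lv K t.1 false)
          (lv K t.1 true * xi K t.1 true t.1 (be t.2) + oo K t.1 true t.1 (be t.2))
          (lv K t.1 true) *
        dtY (tau K (bb t.2) t'.1 (be t'.2)) (-2 * bb t.2)
          (lv K t.1 false * xi K t.1 false t'.1 (be t'.2) + oo K t.1 false t'.1 (be t'.2))
          (lv K t.1 false)
          (lv K t.1 true * xi K t.1 true t'.1 (be t'.2) + oo K t.1 true t'.1 (be t'.2))
          (lv K t.1 true) < 0 := by
      intro t t' htt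
      have w1 := sepW h t.1 (hbb0 t.2) (hbb1 t.2) t.1 (hw t.1) (hbe0 t.2) (hbe1 t.2) (hne t.2 t.2)
      have w2 := sepW h t.1 (hbb0 t.2) (hbb1 t.2) t'.1 (hw t'.1) (hbe0 t'.2) (hbe1 t'.2)
        (hne t'.2 t.2)
      have g1 : -2 * bb t.2 < lv K t.1 false := by linarith [hbb0 t.2, hlv t.1 false]
      have g2 : lv K t.1 false < lv K t.1 true := by
        simp only [lv, if_true, if_false, Bool.false_eq_true]
        linarith [h.GleR t.1, h.Gpos t.1]
      refine dtY_neg (p := ((t.1 : ℕ) : ℝ) + (bb t.2 + th K M t.1) / R K t.1) (q := -bb t.2)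
        (r := 1) (c := bb t.2 ^ 2 - 1 / 2) (a := al K t.1 (be t.2)) (b := be t.2)
        (g := be t.2 ^ 2) (a' := al K t'.1 (be t'.2)) (b' := be t'.2) (g' := be t'.2 ^ 2) g1 g2
        ?_ ?_ ?_ ?_ ?_ ?_ ?_
      · rw [fun3_near h _ _ _ _ _ (hw _) (hbe0 _) (hbe1 _)]
        exact w1.2.1
      · rw [fun3_far h _ _ _ _ _ _ (hbe0 _) (hbe1 _)]
        exact w1.1
      · rw [fun3_far h _ _ _ _ _ _ (hbe0 _) (hbe1 _)]
        exact w1.2.2
      · rw [fun3_near h _ _ _ _ _ (hw _) (hbe0 _) (hbe1 _)]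
        exact w2.2.1
      · rw [fun3_far h _ _ _ _ _ _ (hbe0 _) (hbe1 _)]
        exact w2.1
      · rw [fun3_far h _ _ _ _ _ _ (hbe0 _) (hbe1 _)]
        exact w2.2.2
      · -- the slope lies between
        have hth0 := h.th_pos t.1
        have hth1 := h.th_le t.1
        have hR := h.Rpos t.1
        apply mul_neg_of_neg_of_pos
        · have e1 : ((t.1 : ℕ) : ℝ) + (bb t.2 + th K M t.1) / R K t.1 + 1 * al K t.1 (be t.2) =
              (bb t.2 + th K M t.1 - be t.2) / R K t.1 := by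
            unfold al
            ring
          rw [e1]
          apply div_neg_of_neg_of_pos _ hR
          rw [hbb, hbe]
          linarith
        · rcases htt with h5 | ⟨h5, h6⟩
          · have h7 : ((t'.1 : ℕ) : ℝ) + 1 ≤ ((t.1 : ℕ) : ℝ) := by exact_mod_cast h5
            have h8 := h.bR t'.1 (hbe0 t'.2) (hbe1 t'.2)
            have h9 : 0 ≤ (bb t.2 + th K M t.1) / R K t.1 :=
              div_nonneg (by linarith [hbb0 t.2]) hR.le
            unfold al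
            linarith [h8.2]
          · rw [h5]
            have e1 : ((t.1 : ℕ) : ℝ) + (bb t.2 + th K M t.1) / R K t.1 +
                1 * al K t.1 (be t'.2) = (bb t.2 + th K M t.1 - be t'.2) / R K t.1 := by
              unfold al
              ring
            rw [e1]
            apply div_pos _ hR
            have h7 : ((t'.2 : ℕ) : ℝ) + 1 ≤ ((t.2 : ℕ) : ℝ) := by exact_mod_cast h6
            rw [hbb, hbe]
            linarith
    intro t t' htt
    have hcase : ((t'.1 : ℕ) < (t.1 : ℕ) ∨ (t'.1 = t.1 ∧ (t'.2 : ℕ) < t.2)) ∨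
        ((t.1 : ℕ) < (t'.1 : ℕ) ∨ (t.1 = t'.1 ∧ (t.2 : ℕ) < t'.2)) := by
      rcases lt_trichotomy (t.1 : ℕ) (t'.1 : ℕ) with h1 | h1 | h1
      · exact Or.inr (Or.inl h1)
      · have h2 : t.1 = t'.1 := Fin.ext h1
        have h3 : t.2 ≠ t'.2 := fun h4 => htt (Prod.ext h2 h4)
        rcases lt_trichotomy (t.2 : ℕ) (t'.2 : ℕ) with h4 | h4 | h4
        · exact Or.inr (Or.inr ⟨h2, h4⟩)
        · exact absurd (Fin.ext h4) h3
        · exact Or.inl (Or.inr ⟨h2.symm, h4⟩)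
      · exact Or.inl (Or.inl h1)
    rcases hcase with hc | hc
    · exact ⟨Sum.inl t.2, Sum.inr (t.1, false), Sum.inr (t.1, true), key t t' hc⟩
    · refine ⟨Sum.inl t'.2, Sum.inr (t'.1, false), Sum.inr (t'.1, true), ?_⟩
      rw [mul_comm]
      exact key t' t hc

end Pool.Agent.helper8.GK
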