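import Mathlib
import Pool.Agent.helper8.GK.Core

set_option autoImplicit false

/-!
Geometric permutations of `k`-flats: configurations of `k`-flats and the passage from `k` to
`k + 1` (helper file for MP_06d6be_co).
-/

namespace Pool.Agent.helper8.GK

/-- orientation determinant of `k + 1` points of `ℝ^k` -/
noncomputable def detK {k : ℕ} {ι : Type} (x : ι → Fin k → ℝ) (I : Fin (k + 1) → ι) : ℝ :=
  Matrix.det (Matrix.of fun r c : Fin (k + 1) => (Fin.cons 1 (x (I r)) : Fin (k + 1) → ℝ) c)

/-- A good configuration of `k`-flats `v ↦ (v, a t + b t v)` of `ℝ^k × V`: for every index `i` one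
point on each flat; every partition of at most `k + 1` of the point sets can be realised by a
hyperplane; different flats see different order types. -/
def GoodK (k : ℕ) (V ι τ : Type) [AddCommGroup V] [Module ℝ V] : Prop :=
  ∃ (x : τ → ι → Fin k → ℝ) (a : τ → V) (b : τ → (Fin k → ℝ) →ₗ[ℝ] V),
    (∀ s u : Finset ι, s.card ≤ k + 1 → ∃ (f : ((Fin k → ℝ) × V) →ₗ[ℝ] ℝ) (c : ℝ),
      ∀ i ∈ s, ∀ t, (i ∈ u → c < f (x t i, a t + b t (x t i))) ∧
        (i ∉ u → f (x t i, a t + b t (x t i)) < c)) ∧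
    (∀ t t', t ≠ t' → ∃ I : Fin (k + 1) → ι, detK (x t) I * detK (x t') I < 0)

theorem detK_two {ι : Type} (x y : ι → ℝ) (i j k : ι) :
    detK (fun l => ![x l, y l]) ![i, j, k] = dtY (x i) (y i) (x j) (y j) (x k) (y k) := by
  have h0 : ∀ v : Fin 2 → ℝ, (Fin.cons 1 v : Fin 3 → ℝ) 0 = 1 := fun _ => rfl
  have h1 : ∀ a b : ℝ, (Fin.cons 1 ![a, b] : Fin 3 → ℝ) 1 = a := fun _ _ => rfl
  have h2 : ∀ a b : ℝ, (Fin.cons 1 ![a, b] : Fin 3 → ℝ) 2 = b := fun _ _ => rfl
  have g0 : (![i, j, k] : Fin 3 → ι) 0 = i := rfl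
  have g1 : (![i, j, k] : Fin 3 → ι) 1 = j := rfl
  have g2 : (![i, j, k] : Fin 3 → ι) 2 = k := rfl
  unfold detK dtY
  rw [Matrix.det_fin_three]
  simp only [Matrix.of_apply, h0, h1, h2, g0, g1, g2]
  ring

/-- the functional on `ℝ² × V` obtained from one on `ℝ × ℝ × V` -/
noncomputable def toFin2 (V : Type) [AddCommGroup V] [Module ℝ V] :
    ((Fin 2 → ℝ) × V) →ₗ[ℝ] (ℝ × ℝ × V) where
  toFun p := (p.1 0, p.1 1, p.2)
  map_add' _ _ := rfl
  map_smul' _ _ := rfl

theorem GoodY.goodK {V ι τ : Type} [AddCommGroup V] [Module ℝ V] [Finite ι]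
    (h : GoodY V ι τ) : GoodK 2 V ι τ := by
  classical
  obtain ⟨y, x, α, β, γ, h0, h1, h2⟩ := h
  set b : τ → (Fin 2 → ℝ) →ₗ[ℝ] V := fun t =>
    (LinearMap.proj 0 : (Fin 2 → ℝ) →ₗ[ℝ] ℝ).smulRight (α t) +
    (LinearMap.proj 1 : (Fin 2 → ℝ) →ₗ[ℝ] ℝ).smulRight (β t) with hb
  have hpt : ∀ t i, toFin2 V (![x t i, y i], γ t + b t ![x t i, y i]) =
      ptY (x t i) (y i) (α t) (β t) (γ t) := by
    intro t i
    simp [toFin2, ptY, hb, add_comm]
  refine ⟨fun t i => ![x t i, y i], γ, b, ?_, ?_⟩
  · intro s u hs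
    -- threshold in the level
    by_cases hA : ∀ p ∈ s, ∀ q ∈ s, p ∈ u → q ∉ u → y q < y p
    · obtain ⟨c, hc1, hc2⟩ := Order.exists_between_finsets ((s.filter (· ∉ u)).image y)
        ((s.filter (· ∈ u)).image y) (by
          intro a ha b hb
          obtain ⟨q, hq, rfl⟩ := Finset.mem_image.mp ha
          obtain ⟨p, hp, rfl⟩ := Finset.mem_image.mp hb
          rw [Finset.mem_filter] at hq hp
          exact hA p hp.1 q hq.1 hp.2 hq.2)
      refine ⟨(linXY V 0 1) ∘ₗ toFin2 V, c, ?_⟩
      intro i hi t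
      rw [LinearMap.comp_apply, hpt, linXY_apply]
      constructor
      · intro hu
        have := hc2 (y i) (Finset.mem_image.mpr ⟨i, Finset.mem_filter.mpr ⟨hi, hu⟩, rfl⟩)
        linarith
      · intro hu
        have := hc1 (y i) (Finset.mem_image.mpr ⟨i, Finset.mem_filter.mpr ⟨hi, hu⟩, rfl⟩)
        linarith
    by_cases hB : ∀ p ∈ s, ∀ q ∈ s, p ∈ u → q ∉ u → y p < y q
    · obtain ⟨c, hc1, hc2⟩ := Order.exists_between_finsets ((s.filter (· ∈ u)).image y)
        ((s.filter (· ∉ u)).image y) (by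
          intro a ha b hb
          obtain ⟨q, hq, rfl⟩ := Finset.mem_image.mp ha
          obtain ⟨p, hp, rfl⟩ := Finset.mem_image.mp hb
          rw [Finset.mem_filter] at hq hp
          exact hB q hq.1 p hp.1 hq.2 hp.2)
      refine ⟨(linXY V 0 (-1)) ∘ₗ toFin2 V, -c, ?_⟩
      intro i hi t
      rw [LinearMap.comp_apply, hpt, linXY_apply]
      constructor
      · intro hu
        have := hc1 (y i) (Finset.mem_image.mpr ⟨i, Finset.mem_filter.mpr ⟨hi, hu⟩, rfl⟩)
        linarith
      · intro hu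
        have := hc2 (y i) (Finset.mem_image.mpr ⟨i, Finset.mem_filter.mpr ⟨hi, hu⟩, rfl⟩)
        linarith
    push Not at hA hB
    obtain ⟨p, hp, q, hq, hpu, hqu, hpq⟩ := hA
    obtain ⟨p', hp', q', hq', hpu', hqu', hpq'⟩ := hB
    have hne : p ≠ q := fun h => hqu (h ▸ hpu)
    have hne' : p' ≠ q' := fun h => hqu' (h ▸ hpu')
    have hne1 : p ≠ q' := fun h => hqu' (h ▸ hpu)
    have hne2 : p' ≠ q := fun h => hqu (h ▸ hpu')
    have hpq : y p < y q := lt_of_le_of_ne hpq (fun h => hne (h0 h))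
    have hpq' : y q' < y p' := lt_of_le_of_ne hpq' (fun h => hne' (h0 h).symm)
    -- `p, p' ∈ u`, `q, q' ∉ u`
    have hcard : p = p' ∨ q = q' := by
      by_contra hcon
      push Not at hcon
      have h4 : ({p, p', q, q'} : Finset ι).card = 4 := by
        rw [Finset.card_insert_of_notMem, Finset.card_insert_of_notMem,
          Finset.card_insert_of_notMem, Finset.card_singleton]
        · simp [hcon.2]
        · simp [hne2, hne']
        · simp [hcon.1, hne, hne1]
      have h5 : ({p, p', q, q'} : Finset ι) ⊆ s := by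
        intro z hz
        simp only [Finset.mem_insert, Finset.mem_singleton] at hz
        rcases hz with rfl | rfl | rfl | rfl <;> assumption
      have h6 := Finset.card_le_card h5
      omega
    rcases hcard with hpp | hqq
    · -- `q' < p < q`
      subst hpp
      have hqq' : q ≠ q' := by
        rintro rfl
        exact lt_asymm hpq hpq'
      have hs' : ∀ i ∈ s, i = q' ∨ i = p ∨ i = q := by
        intro i hi
        by_contra hcon
        push Not at hcon
        have h4 : ({i, q', p, q} : Finset ι).card = 4 := by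
          rw [Finset.card_insert_of_notMem, Finset.card_insert_of_notMem,
            Finset.card_insert_of_notMem, Finset.card_singleton]
          · simp [hne]
          · simp [hne1.symm, hqq'.symm]
          · simp [hcon.1, hcon.2.1, hcon.2.2]
        have h5 : ({i, q', p, q} : Finset ι) ⊆ s := by
          intro z hz
          simp only [Finset.mem_insert, Finset.mem_singleton] at hz
          rcases hz with rfl | rfl | rfl | rfl <;> assumption
        have h6 := Finset.card_le_card h5
        omega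
      obtain ⟨f, c, hf1, hf2, hf3⟩ := h1 q' p q hpq' hpq
      refine ⟨(-f) ∘ₗ toFin2 V, -c, ?_⟩
      intro i hi t
      rw [LinearMap.comp_apply, hpt, LinearMap.neg_apply]
      rcases hs' i hi with rfl | rfl | rfl
      · exact ⟨fun h => absurd h hqu', fun _ => neg_lt_neg (hf2 t)⟩
      · exact ⟨fun _ => neg_lt_neg (hf1 t), fun h => absurd hpu h⟩
      · exact ⟨fun h => absurd h hqu, fun _ => neg_lt_neg (hf3 t)⟩
    · -- `p < q < p'`
      subst hqq
      have hpp' : p ≠ p' := by
        rintro rfl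
        exact lt_asymm hpq hpq'
      have hs' : ∀ i ∈ s, i = p ∨ i = q ∨ i = p' := by
        intro i hi
        by_contra hcon
        push Not at hcon
        have h4 : ({i, p, q, p'} : Finset ι).card = 4 := by
          rw [Finset.card_insert_of_notMem, Finset.card_insert_of_notMem,
            Finset.card_insert_of_notMem, Finset.card_singleton]
          · simp [hne2.symm]
          · simp [hne, hpp']
          · simp [hcon.1, hcon.2.1, hcon.2.2]
        have h5 : ({i, p, q, p'} : Finset ι) ⊆ s := by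
          intro z hz
          simp only [Finset.mem_insert, Finset.mem_singleton] at hz
          rcases hz with rfl | rfl | rfl | rfl <;> assumption
        have h6 := Finset.card_le_card h5
        omega
      obtain ⟨f, c, hf1, hf2, hf3⟩ := h1 p q p' hpq hpq'
      refine ⟨f ∘ₗ toFin2 V, c, ?_⟩
      intro i hi t
      rw [LinearMap.comp_apply, hpt]
      rcases hs' i hi with rfl | rfl | rfl
      · exact ⟨fun _ => hf2 t, fun h => absurd hpu h⟩
      · exact ⟨fun h => absurd h hqu, fun _ => hf1 t⟩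
      · exact ⟨fun _ => hf3 t, fun h => absurd hpu' h⟩
  · intro t t' htt
    obtain ⟨i, j, k, h3⟩ := h2 t t' htt
    refine ⟨![i, j, k], ?_⟩
    rw [detK_two (x t) y, detK_two (x t') y]
    exact h3

theorem exists_pos_lower {α : Type} [Finite α] (v : α → ℝ) (h : ∀ a, 0 < v a) :
    ∃ δ : ℝ, 0 < δ ∧ ∀ a, δ ≤ v a := by
  cases isEmpty_or_nonempty α
  · exact ⟨1, one_pos, fun a => isEmptyElim a⟩
  · obtain ⟨a₀, ha₀⟩ := Finite.exists_min v
    exact ⟨v a₀, h a₀, ha₀⟩

theorem GoodK.reindex {k : ℕ} {V ι ι' τ τ' : Type} [AddCommGroup V] [Module ℝ V]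
    (e : ι' ≃ ι) (e' : τ' ↪ τ) (h : GoodK k V ι τ) : GoodK k V ι' τ' := by
  classical
  obtain ⟨x, a, b, h1, h2⟩ := h
  refine ⟨fun t i => x (e' t) (e i), fun t => a (e' t), fun t => b (e' t), ?_, ?_⟩
  · intro s u hs
    obtain ⟨f, c, hf⟩ := h1 (s.map e.toEmbedding) (u.map e.toEmbedding) (by simpa using hs)
    refine ⟨f, c, fun i hi t => ?_⟩
    have h3 := hf (e i) (by simpa using hi) (e' t)
    simpa using h3
  · intro t t' htt
    obtain ⟨I, hI⟩ := h2 (e' t) (e' t') (fun h => htt (e'.injective h))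
    refine ⟨fun r => e.symm (I r), ?_⟩
    simpa [detK] using hI

/-- expansion of the determinant of a lifted tuple -/
theorem detK_lift {k : ℕ} {ι : Type} (x : ι → Fin k → ℝ) (w : ι → ℝ) (W : ℝ)
    (I : Fin (k + 1) → ι) :
    detK (fun o : Option ι => Option.elim o (Fin.cons W 0 : Fin (k + 1) → ℝ)
      (fun i => (Fin.cons (w i) (x i) : Fin (k + 1) → ℝ))) (Fin.cons none (fun r => some (I r))) =
    Matrix.det (Matrix.of fun r c : Fin (k + 1) =>
      (Fin.cons (w (I r)) (x (I r)) : Fin (k + 1) → ℝ) c) - W * detK x I := by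
  unfold detK
  rw [Matrix.det_succ_row_zero, Fin.sum_univ_succ, Fin.sum_univ_succ]
  have e0 : ∀ j : Fin k, (Matrix.of fun r c : Fin (k + 1 + 1) =>
      (Fin.cons 1 (Option.elim ((Fin.cons none (fun r => some (I r)) :
        Fin (k + 1 + 1) → Option ι) r) (Fin.cons W 0 : Fin (k + 1) → ℝ)
        (fun i => (Fin.cons (w i) (x i) : Fin (k + 1) → ℝ))) : Fin (k + 1 + 1) → ℝ) c) 0
        j.succ.succ = 0 := by
    intro j
    simp
  simp only [e0, mul_zero, zero_mul, Finset.sum_const_zero, add_zero]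
  simp only [Matrix.of_apply, Fin.cons_zero, Option.elim_none, Fin.val_zero, pow_zero, one_mul,
    Fin.cons_succ, Fin.val_succ, zero_add, pow_one]
  have e1 : ∀ A B C D : ℝ, A = C → B = D → A + -1 * W * B = C - W * D := by
    intro A B C D h1 h2
    rw [h1, h2]
    ring
  apply e1
  · congr 1
  · congr 1
    ext r c
    simp only [Matrix.submatrix_apply, Matrix.of_apply, Fin.cons_succ, Option.elim_some]
    refine Fin.cases ?_ (fun c' => ?_) c
    · simp
    · rw [Fin.cons_succ]
      have : (Fin.succ (0 : Fin (k + 1))).succAbove c'.succ = c'.succ.succ := by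
        rw [Fin.succ_succAbove_succ]
        simp
      rw [this, Fin.cons_succ, Fin.cons_succ]

/-- the passage from `k`-flats to `(k + 1)`-flats -/
theorem GoodK.lift {k : ℕ} {V ι τ : Type} [AddCommGroup V] [Module ℝ V] [Finite ι] [Finite τ]
    (h : GoodK k V ι τ) : GoodK (k + 1) V (Option ι) τ := by
  classical
  cases nonempty_fintype ι
  cases nonempty_fintype τ
  obtain ⟨x, a, b, h1, h2⟩ := h
  -- separating functionals with margin one
  have h3 : ∀ p : Finset ι × Finset ι, ∃ (f : ((Fin k → ℝ) × V) →ₗ[ℝ] ℝ) (c : ℝ),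
      p.1.card ≤ k + 1 → ∀ i ∈ p.1, ∀ t, (i ∈ p.2 → c + 1 ≤ f (x t i, a t + b t (x t i))) ∧
        (i ∉ p.2 → f (x t i, a t + b t (x t i)) ≤ c - 1) := by
    intro p
    by_cases hp : p.1.card ≤ k + 1
    · obtain ⟨f, c, hf⟩ := h1 p.1 p.2 hp
      obtain ⟨δ, hδ, hδ'⟩ := exists_pos_lower (α := p.1 × τ)
        (fun q => |f (x q.2 q.1, a q.2 + b q.2 (x q.2 q.1)) - c|) (by
          rintro ⟨⟨i, hi⟩, t⟩
          have h4 := hf i hi t
          refine abs_pos.mpr (sub_ne_zero.mpr ?_)
          by_cases hu : i ∈ p.2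
          · exact (h4.1 hu).ne'
          · exact (h4.2 hu).ne)
      refine ⟨δ⁻¹ • f, δ⁻¹ * c, fun _ i hi t => ?_⟩
      have h4 := hf i hi t
      have h5 := hδ' (⟨i, hi⟩, t)
      dsimp only at h5
      rw [LinearMap.smul_apply, smul_eq_mul]
      have h6 : δ⁻¹ * δ = 1 := inv_mul_cancel₀ hδ.ne'
      have h7 : 0 < δ⁻¹ := inv_pos.mpr hδ
      constructor
      · intro hu
        rw [abs_of_pos (sub_pos.mpr (h4.1 hu))] at h5
        have h8 : δ⁻¹ * (c + δ) ≤ δ⁻¹ * f (x t i, a t + b t (x t i)) :=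
          mul_le_mul_of_nonneg_left (by linarith) h7.le
        rw [mul_add, h6] at h8
        exact h8
      · intro hu
        rw [abs_of_neg (sub_neg.mpr (h4.2 hu))] at h5
        have h8 : δ⁻¹ * f (x t i, a t + b t (x t i)) ≤ δ⁻¹ * (c - δ) :=
          mul_le_mul_of_nonneg_left (by linarith) h7.le
        rw [mul_sub, h6] at h8
        exact h8
    · exact ⟨0, 0, fun h => absurd h hp⟩
  choose F C hFC using h3
  -- a bound for all the values
  obtain ⟨K₁, hK₁⟩ := exists_bound (ι := ι × τ) (τ := Finset ι × Finset ι)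
    (fun p q => F p (x q.2 q.1, a q.2 + b q.2 (x q.2 q.1)) - C p)
  obtain ⟨K₂, hK₂⟩ := exists_bound (ι := τ) (τ := Finset ι × Finset ι)
    (fun p t => F p (0, a t) - C p)
  obtain ⟨K, hK0, hK, hK'⟩ : ∃ K : ℝ, 0 ≤ K ∧
      (∀ p i t, |F p (x t i, a t + b t (x t i)) - C p| ≤ K) ∧
      (∀ p t, |F p (0, a t) - C p| ≤ K) :=
    ⟨max 0 (max K₁ K₂), le_max_left _ _,
      fun p i t => (hK₁ p (i, t)).trans (le_trans (le_max_left _ _) (le_max_right _ _)),
      fun p t => (hK₂ p t).trans (le_trans (le_max_right _ _) (le_max_right _ _))⟩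
  set Q : ℝ := 2 * K + 2 with hQ
  have hQ2 : 2 ≤ Q := by linarith
  -- rapidly growing weights
  obtain ⟨w, hw1, hw2⟩ : ∃ w : ι → ℝ, (∀ i, 1 ≤ w i) ∧
      (∀ i j, i ≠ j → w i ≤ w j → Q * w i ≤ w j) := by
    refine ⟨fun i => Q ^ (Fintype.equivFin ι i : ℕ), fun i => one_le_pow₀ (by linarith), ?_⟩
    intro i j hij hle
    have hQ1 : 1 < Q := by linarith
    have h4 := (pow_le_pow_iff_right₀ hQ1).mp hle
    have h5 : (Fintype.equivFin ι i : ℕ) ≠ (Fintype.equivFin ι j : ℕ) := by
      intro h
      exact hij ((Fintype.equivFin ι).injective (Fin.ext h))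
    calc Q * Q ^ (Fintype.equivFin ι i : ℕ) = Q ^ ((Fintype.equivFin ι i : ℕ) + 1) := by
          rw [pow_succ]
          ring
      _ ≤ Q ^ (Fintype.equivFin ι j : ℕ) :=
          pow_le_pow_right₀ hQ1.le (by omega)
  choose I hI using h2
  -- the weight of the new set
  obtain ⟨W₁, hW₁⟩ := exists_bound (fun _ : Unit => fun i => Q * w i)
  set E : (t : τ) → (Fin (k + 1) → ι) → ℝ := fun t J =>
    Matrix.det (Matrix.of fun r c : Fin (k + 1) =>
      (Fin.cons (w (J r)) (x t (J r)) : Fin (k + 1) → ℝ) c) with hE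
  obtain ⟨W₂, hW₂⟩ := exists_bound (τ := Unit) (ι := {p : τ × τ // p.1 ≠ p.2})
    (fun _ p => (|E p.1.1 (I _ _ p.2) * E p.1.2 (I _ _ p.2)| +
      |E p.1.1 (I _ _ p.2) * detK (x p.1.2) (I _ _ p.2) +
        E p.1.2 (I _ _ p.2) * detK (x p.1.1) (I _ _ p.2)|) /
      -(detK (x p.1.1) (I _ _ p.2) * detK (x p.1.2) (I _ _ p.2)))
  obtain ⟨W, hW1, hWw, hWE⟩ : ∃ W : ℝ, 1 ≤ W ∧ (∀ i, Q * w i ≤ W) ∧
      (∀ t t' (h : t ≠ t'), (|E t (I _ _ h) * E t' (I _ _ h)| +
        |E t (I _ _ h) * detK (x t') (I _ _ h) + E t' (I _ _ h) * detK (x t) (I _ _ h)|) /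
        -(detK (x t) (I _ _ h) * detK (x t') (I _ _ h)) < W) := by
    refine ⟨max 1 (max W₁ (W₂ + 1)), le_max_left _ _, ?_, ?_⟩
    · intro i
      exact (le_abs_self _).trans ((hW₁ () i).trans
        (le_trans (le_max_left _ _) (le_max_right _ _)))
    · intro t t' h
      have h4 := (le_abs_self _).trans (hW₂ () ⟨(t, t'), h⟩)
      refine lt_of_le_of_lt h4 (lt_of_lt_of_le (lt_add_one _)
        (le_trans (le_max_right _ _) (le_max_right _ _)))
  refine ⟨fun t o => Option.elim o (Fin.cons W 0 : Fin (k + 1) → ℝ)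
    (fun i => (Fin.cons (w i) (x t i) : Fin (k + 1) → ℝ)), a,
    fun t => b t ∘ₗ LinearMap.funLeft ℝ ℝ Fin.succ, ?_, ?_⟩
  · -- separation
    intro s' u' hs'
    rcases s'.eq_empty_or_nonempty with rfl | hne
    · exact ⟨0, 0, fun i hi => absurd hi (Finset.notMem_empty _)⟩
    set p : Option ι → ℝ := fun o => Option.elim o W w with hp
    have hp1 : ∀ o, 1 ≤ p o := by
      rintro (_ | i)
      · exact hW1
      · exact hw1 i
    have hp2 : ∀ o o', o ≠ o' → p o ≤ p o' → Q * p o ≤ p o' := by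
      rintro (_ | i) (_ | j) hij hle
      · exact absurd rfl hij
      · exfalso
        have h4 := hWw j
        have h5 := hw1 j
        simp only [hp, Option.elim_none, Option.elim_some] at hle
        have h6 : 2 * w j ≤ Q * w j := mul_le_mul_of_nonneg_right hQ2 (by linarith)
        linarith
      · exact hWw i
      · exact hw2 i j (fun h => hij (by rw [h])) hle
    obtain ⟨o, ho, hmax⟩ := Finset.exists_max_image s' p hne
    set q : Finset ι × Finset ι := (Finset.eraseNone (s'.erase o), Finset.eraseNone u') with hq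
    have hqc : q.1.card ≤ k + 1 := by
      have h4 : q.1.card ≤ (s'.erase o).card := by
        rw [hq]
        exact Finset.card_eraseNone_le _
      have h5 := Finset.card_erase_of_mem ho
      omega
    have h6 := hFC q hqc
    have hpo : 0 < p o := by linarith [hp1 o]
    set l : ℝ := (if o ∈ u' then (K + 1) else -(K + 1)) / p o with hl
    have hlp : |l| * p o = K + 1 := by
      rw [hl, abs_div, abs_of_pos hpo, div_mul_cancel₀ _ hpo.ne']
      split_ifs
      · exact abs_of_pos (by linarith)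
      · rw [abs_neg]
        exact abs_of_pos (by linarith)
    refine ⟨F q ∘ₗ (LinearMap.prodMap (LinearMap.funLeft ℝ ℝ Fin.succ) LinearMap.id) +
      l • (LinearMap.proj 0 ∘ₗ LinearMap.fst ℝ (Fin (k + 1) → ℝ) V), C q, ?_⟩
    -- evaluation
    have hev : ∀ (z : Fin (k + 1) → ℝ) (v : V),
        (F q ∘ₗ (LinearMap.prodMap (LinearMap.funLeft ℝ ℝ Fin.succ) LinearMap.id) +
          l • (LinearMap.proj 0 ∘ₗ LinearMap.fst ℝ (Fin (k + 1) → ℝ) V)) (z, v) =
        F q (z ∘ Fin.succ, v) + l * z 0 := by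
      intro z v
      rfl
    intro o' ho' t
    rw [hev]
    -- the old value
    obtain ⟨A, hA1, hA2, hA3⟩ : ∃ A : ℝ, |A - C q| ≤ K ∧
        (F q ((Option.elim o' (Fin.cons W 0 : Fin (k + 1) → ℝ)
          (fun i => (Fin.cons (w i) (x t i) : Fin (k + 1) → ℝ))) ∘ Fin.succ,
          a t + (b t ∘ₗ LinearMap.funLeft ℝ ℝ Fin.succ)
            (Option.elim o' (Fin.cons W 0 : Fin (k + 1) → ℝ)
              (fun i => (Fin.cons (w i) (x t i) : Fin (k + 1) → ℝ)))) = A) ∧
        (o' ≠ o → (o' ∈ u' → C q + 1 ≤ A) ∧ (o' ∉ u' → A ≤ C q - 1)) := by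
      rcases o' with _ | i
      · refine ⟨F q (0, a t), hK' q t, ?_, ?_⟩
        · simp only [Option.elim_none]
          have e1 : (Fin.cons W 0 : Fin (k + 1) → ℝ) ∘ Fin.succ = 0 := by
            funext c
            simp
          have e2 : (b t ∘ₗ LinearMap.funLeft ℝ ℝ Fin.succ) (Fin.cons W 0 : Fin (k + 1) → ℝ)
              = b t ((Fin.cons W 0 : Fin (k + 1) → ℝ) ∘ Fin.succ) := rfl
          rw [e2, e1, map_zero, add_zero]
        · intro hoo
          exfalso
          have h4 := hp2 none o hoo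
          rcases o with _ | j
          · exact hoo rfl
          · have h5 := hmax none ho'
            have h7 := h4 h5
            have h8 := hWw j
            have h9 := hw1 j
            have h10 := hW1
            simp only [hp, Option.elim_none, Option.elim_some] at h5 h7
            have h11 : 2 * w j ≤ Q * w j := mul_le_mul_of_nonneg_right hQ2 (by linarith)
            linarith
      · refine ⟨F q (x t i, a t + b t (x t i)), hK q i t, ?_, ?_⟩
        · simp only [Option.elim_some]
          have e1 : (Fin.cons (w i) (x t i) : Fin (k + 1) → ℝ) ∘ Fin.succ = x t i := by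
            funext c
            simp
          have e2 : (b t ∘ₗ LinearMap.funLeft ℝ ℝ Fin.succ)
              (Fin.cons (w i) (x t i) : Fin (k + 1) → ℝ)
              = b t ((Fin.cons (w i) (x t i) : Fin (k + 1) → ℝ) ∘ Fin.succ) := rfl
          rw [e2, e1]
        · intro hoo
          have h7 : i ∈ q.1 := by
            rw [hq]
            simp only [Finset.mem_eraseNone, Finset.mem_erase]
            exact ⟨hoo, ho'⟩
          have h8 := h6 i h7 t
          have h9 : i ∈ q.2 ↔ some i ∈ u' := by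
            rw [hq]
            simp only [Finset.mem_eraseNone]
          rw [h9] at h8
          exact h8
    rw [hA2]
    beta_reduce
    have hz : (Option.elim o' (Fin.cons W 0 : Fin (k + 1) → ℝ)
        (fun i => (Fin.cons (w i) (x t i) : Fin (k + 1) → ℝ))) 0 = p o' := by
      rcases o' with _ | i
      · simp [hp]
      · simp [hp]
    rw [hz]
    by_cases hoo : o' = o
    · subst hoo
      have h7 := abs_le.mp hA1
      constructor
      · intro hu
        have h8 : l * p o' = K + 1 := by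
          rw [hl, if_pos hu, div_mul_cancel₀ _ hpo.ne']
        rw [h8]
        linarith [h7.1]
      · intro hu
        have h8 : l * p o' = -(K + 1) := by
          rw [hl, if_neg hu, div_mul_cancel₀ _ hpo.ne']
        rw [h8]
        linarith [h7.2]
    · have h7 : |l * p o'| < 1 := by
        have h8 := hp2 o' o hoo (hmax o' ho')
        rw [abs_mul, abs_of_pos (show 0 < p o' by linarith [hp1 o'])]
        have h9 : |l| * (Q * p o') ≤ |l| * p o := mul_le_mul_of_nonneg_left h8 (abs_nonneg _)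
        rw [hlp] at h9
        have h10 : |l| * (Q * p o') = 2 * (K + 1) * (|l| * p o') := by
          rw [hQ]
          ring
        rw [h10] at h9
        have h11 : 0 < K + 1 := by linarith
        nlinarith
      have h8 := abs_lt.mp h7
      have h9 := hA3 hoo
      constructor
      · intro hu
        linarith [h9.1 hu, h8.1]
      · intro hu
        linarith [h9.2 hu, h8.2]
  · -- different order types
    intro t t' htt
    refine ⟨Fin.cons none (fun r => some (I t t' htt r)), ?_⟩
    rw [detK_lift, detK_lift]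
    have h4 := hWE t t' htt
    have h5 := hI t t' htt
    rw [div_lt_iff₀ (by linarith)] at h4
    change (E t (I t t' htt) - W * detK (x t) (I t t' htt)) *
      (E t' (I t t' htt) - W * detK (x t') (I t t' htt)) < 0
    generalize E t (I t t' htt) = e₁ at h4 ⊢
    generalize E t' (I t t' htt) = e₂ at h4 ⊢
    generalize detK (x t) (I t t' htt) = d₁ at h4 h5 ⊢
    generalize detK (x t') (I t t' htt) = d₂ at h4 h5 ⊢
    have h6 := le_abs_self (e₁ * e₂)
    have h7 := neg_abs_le (e₁ * d₂ + e₂ * d₁)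
    have h8 : (e₁ - W * d₁) * (e₂ - W * d₂) =
        e₁ * e₂ - W * (e₁ * d₂ + e₂ * d₁) + W * (W * (d₁ * d₂)) := by ring
    rw [h8]
    have h9 : e₁ * e₂ ≤ W * |e₁ * e₂| := by
      have := abs_nonneg (e₁ * e₂)
      nlinarith
    have h10 : -(W * (e₁ * d₂ + e₂ * d₁)) ≤ W * |e₁ * d₂ + e₂ * d₁| := by
      nlinarith
    have h11 : W * (|e₁ * e₂| + |e₁ * d₂ + e₂ * d₁| + W * (d₁ * d₂)) < 0 := by
      apply mul_neg_of_pos_of_neg (by linarith)
      linarith
    linarith

/-- iterated lifts -/
theorem GoodK.lift_iterate {V τ : Type} [AddCommGroup V] [Module ℝ V] [Finite τ] {n : ℕ}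
    {k : ℕ} (h : GoodK k V (Fin n) τ) (j : ℕ) : GoodK (k + j) V (Fin (n + j)) τ := by
  induction j with
  | zero => exact h
  | succ j ih =>
    exact (GoodK.lift ih).reindex (finSuccEquiv (n + j)) (Function.Embedding.refl τ)

end Pool.Agent.helper8.GK
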