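import Mathlib
import Pool.Agent.helper8.GP.Plates
import Pool.Agent.helper8.GK.Lift
import Pool.Agent.helper8.GK.BaseY

set_option autoImplicit false

/-!
Geometric permutations of `k`-flats: many configurations (helper file for MP_06d6be_co).
-/

namespace Pool.Agent.helper8.GK

open Pool.Agent.helper8.GP

/-! ### Lines -/

theorem detK_one {ι : Type} (x : ι → ℝ) (i j : ι) :
    detK (fun l => ![x l]) ![i, j] = x j - x i := by
  have h0 : ∀ v : Fin 1 → ℝ, (Fin.cons 1 v : Fin 2 → ℝ) 0 = 1 := fun _ => rfl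
  have h1 : ∀ a : ℝ, (Fin.cons 1 ![a] : Fin 2 → ℝ) 1 = a := fun _ => rfl
  have g0 : (![i, j] : Fin 2 → ι) 0 = i := rfl
  have g1 : (![i, j] : Fin 2 → ι) 1 = j := rfl
  unfold detK
  rw [Matrix.det_fin_two]
  simp only [Matrix.of_apply, h0, h1, g0, g1]
  ring

/-- the functional on `ℝ^1 × V` obtained from one on `ℝ × V` -/
noncomputable def toFin1 (V : Type) [AddCommGroup V] [Module ℝ V] :
    ((Fin 1 → ℝ) × V) →ₗ[ℝ] (ℝ × V) where
  toFun p := (p.1 0, p.2)
  map_add' _ _ := rfl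
  map_smul' _ _ := rfl

theorem goodK_one {V ι τ : Type} [AddCommGroup V] [Module ℝ V] (h : Good V ι τ) :
    GoodK 1 V ι τ := by
  classical
  obtain ⟨x, a, b, h1, h2⟩ := h
  refine ⟨fun t i => ![x t i], a,
    fun t => (LinearMap.proj 0 : (Fin 1 → ℝ) →ₗ[ℝ] ℝ).smulRight (b t), ?_, ?_⟩
  · have hpt : ∀ t i, toFin1 V (![x t i], a t +
        (LinearMap.proj 0 : (Fin 1 → ℝ) →ₗ[ℝ] ℝ).smulRight (b t) ![x t i]) = pt x a b t i := by
      intro t i
      simp [toFin1, pt]
    intro s u hs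
    by_cases hA : ∃ p ∈ s, ∃ q ∈ s, p ∈ u ∧ q ∉ u
    · obtain ⟨p, hp, q, hq, hpu, hqu⟩ := hA
      have hne : q ≠ p := fun h => hqu (h ▸ hpu)
      obtain ⟨f, c, hf1, hf2⟩ := h1 q p hne
      refine ⟨f ∘ₗ toFin1 V, c, ?_⟩
      intro i hi t
      rw [LinearMap.comp_apply, hpt]
      have hi' : i = p ∨ i = q := by
        by_contra hcon
        push Not at hcon
        have h4 : ({i, p, q} : Finset ι).card = 3 := by
          rw [Finset.card_insert_of_notMem, Finset.card_insert_of_notMem,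
            Finset.card_singleton]
          · simp [hne.symm]
          · simp [hcon.1, hcon.2]
        have h5 : ({i, p, q} : Finset ι) ⊆ s := by
          intro z hz
          simp only [Finset.mem_insert, Finset.mem_singleton] at hz
          rcases hz with rfl | rfl | rfl <;> assumption
        have h6 := Finset.card_le_card h5
        omega
      rcases hi' with rfl | rfl
      · exact ⟨fun _ => hf2 t, fun h => absurd hpu h⟩
      · exact ⟨fun h => absurd h hqu, fun _ => hf1 t⟩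
    · push Not at hA
      by_cases hB : ∃ p ∈ s, p ∈ u
      · obtain ⟨p, hp, hpu⟩ := hB
        refine ⟨0, -1, fun i hi t => ⟨fun _ => by simp, fun h => absurd (hA p hp i hi hpu) h⟩⟩
      · push Not at hB
        exact ⟨0, 1, fun i hi t => ⟨fun h => absurd h (hB i hi), fun _ => by simp⟩⟩
  · intro t t' htt
    obtain ⟨i, j, hi, hj⟩ := h2 t t' htt
    refine ⟨![i, j], ?_⟩
    rw [detK_one (x t), detK_one (x t')]
    exact mul_neg_of_pos_of_neg (by linarith) (by linarith)

/-- a good configuration of `n` point sets on `N` lines of `ℝ^(k+1)` -/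
def LG (k n N : ℕ) : Prop := Good (Fin k → ℝ) (Fin n) (Fin N)

theorem LG_succ {k n N : ℕ} (h : LG k n N) : LG k (n + 1) N :=
  (Good.option h).reindex (finSuccEquiv n) (Function.Embedding.refl _)

theorem LG_mono {k n n' N N' : ℕ} (h : LG k n N) (hn : n ≤ n') (hN : N' ≤ N) : LG k n' N' := by
  have h1 : LG k n N' := Good.reindex (Equiv.refl _) (Fin.castLEEmb hN) h
  induction n', hn using Nat.le_induction with
  | base => exact h1
  | succ m _ ih => exact LG_succ ih

theorem LG_of_good {k n N : ℕ} {V ι τ : Type} [AddCommGroup V] [Module ℝ V] [Module.Finite ℝ V]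
    [Fintype ι] [Fintype τ] (h : Good V ι τ) (hV : Module.finrank ℝ V = k)
    (hn : Fintype.card ι = n) (hN : Fintype.card τ = N) : LG k n N := by
  have e : V ≃ₗ[ℝ] (Fin k → ℝ) := LinearEquiv.ofFinrankEq V (Fin k → ℝ) (by simp [hV])
  have h1 := Good.equiv e h
  have e1 : Fin n ≃ ι := (Fintype.equivFinOfCardEq hn).symm
  have e2 : Fin N ≃ τ := (Fintype.equivFinOfCardEq hN).symm
  exact h1.reindex e1 e2.toEmbedding

/-- a good configuration with hypothesis (H) -/
def LH (k n N : ℕ) : Prop := GoodH (Fin k → ℝ) (Fin n) (Fin N)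

theorem LH_base : LH 1 1 1 := by
  refine ⟨fun _ _ => 0, fun _ => 0, fun _ => 0, LinearMap.proj 0, fun _ => 1, ?_, ?_, ?_, ?_⟩
  · simp
  · simp
  · intro i j h
    exact absurd (Subsingleton.elim i j) h
  · intro t t' h
    exact absurd (Subsingleton.elim t t') h

theorem LH_block {k n N : ℕ} (m : ℕ) (h : LH k n N) :
    LH (k + 1) (n + 2 * m) (N * (m * m + 1)) := by
  have h1 := GoodH.block m h
  have e : ((Fin k → ℝ) × ℝ) ≃ₗ[ℝ] (Fin (k + 1) → ℝ) :=
    LinearEquiv.ofFinrankEq _ _ (by simp)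
  have e1 : Fin (n + 2 * m) ≃ (Fin n ⊕ (Fin m ⊕ Fin m)) :=
    (Fintype.equivFinOfCardEq (by simp; ring)).symm
  have e2 : Fin (N * (m * m + 1)) ≃ (Fin N × Fin (m * m + 1)) :=
    (Fintype.equivFinOfCardEq (by simp)).symm
  exact (GoodH.equiv e h1).reindex e1 e2.toEmbedding

theorem LH_main (m : ℕ) : ∀ K : ℕ, LH (K + 1) (1 + 2 * m * K) ((m * m + 1) ^ K)
  | 0 => by simpa using LH_base
  | K + 1 => by
    have h1 := LH_block m (LH_main m K)
    have e1 : 1 + 2 * m * K + 2 * m = 1 + 2 * m * (K + 1) := by ring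
    have e2 : (m * m + 1) ^ K * (m * m + 1) = (m * m + 1) ^ (K + 1) := by ring
    rwa [e1, e2] at h1

theorem LG_plates {k n N : ℕ} (m : ℕ) (hn : 1 ≤ n) (h : LH k n N) :
    LG k (n + m) (N * (m + 1)) := by
  refine LG_of_good (GoodH.plates ⟨0, hn⟩ m h) ?_ ?_ ?_
  · simp
  · simp
  · simp

/-- `2 (K + 1) m` sets in `ℝ^(K+2)` with `m ^ (2 K + 1)` orders of lines -/
theorem LG_main (m : ℕ) (hm : 1 ≤ m) (K : ℕ) :
    LG (K + 1) (2 * (K + 1) * m) (m ^ (2 * K + 1)) := by
  have h1 := LG_plates m (by omega) (LH_main m K)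
  refine LG_mono h1 ?_ ?_
  · nlinarith
  · calc m ^ (2 * K + 1) = (m * m) ^ K * m := by rw [pow_succ, pow_mul, pow_two]
      _ ≤ (m * m + 1) ^ K * (m + 1) := by
          gcongr <;> omega

/-! ### Flats of dimension at least two -/

/-- a good configuration of `n` point sets on `N` two-dimensional flats of `ℝ^(2+c)` -/
def YG (c n N : ℕ) : Prop := GoodY (Fin c → ℝ) (Fin n) (Fin N)

theorem YG_succ {c n N : ℕ} (h : YG c n N) : YG c (n + 1) N :=
  (GoodY.option h).reindex (finSuccEquiv n) (Function.Embedding.refl _)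

theorem YG_mono {c n n' N N' : ℕ} (h : YG c n N) (hn : n ≤ n') (hN : N' ≤ N) : YG c n' N' := by
  have h1 : YG c n N' := GoodY.reindex (Equiv.refl _) (Fin.castLEEmb hN) h
  induction n', hn using Nat.le_induction with
  | base => exact h1
  | succ m _ ih => exact YG_succ ih

theorem YG_of_goodY {c n N : ℕ} {V ι τ : Type} [AddCommGroup V] [Module ℝ V] [Module.Finite ℝ V]
    [Fintype ι] [Fintype τ] (h : GoodY V ι τ) (hV : Module.finrank ℝ V = c)
    (hn : Fintype.card ι = n) (hN : Fintype.card τ = N) : YG c n N := by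
  have e : V ≃ₗ[ℝ] (Fin c → ℝ) := LinearEquiv.ofFinrankEq V (Fin c → ℝ) (by simp [hV])
  have h1 := GoodY.equiv e h
  have e1 : Fin n ≃ ι := (Fintype.equivFinOfCardEq hn).symm
  have e2 : Fin N ≃ τ := (Fintype.equivFinOfCardEq hN).symm
  exact h1.reindex e1 e2.toEmbedding

theorem YG_prod {c c' n n' N N' : ℕ} (h : YG c n N) (h' : YG c' n' N') :
    YG (c + c') (n + n') (N * N') := by
  refine YG_of_goodY (GoodY.prod h h') ?_ ?_ ?_
  · simp
  · simp
  · simp

theorem YG_zero : YG 0 1 1 :=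
  YG_of_goodY (GoodY.trivial (Fin 0 → ℝ)) (by simp) (by simp) (by simp)

theorem YG_one (m : ℕ) : YG 1 (3 * m) (m * m) := by
  refine YG_of_goodY (GoodY_base m) ?_ ?_ ?_
  · simp
  · simp
    ring
  · simp

/-- `3 m c + 1` sets in `ℝ^(2+c)` with `m ^ (2 c)` order types of planes -/
theorem YG_main (m : ℕ) : ∀ c : ℕ, YG c (3 * m * c + 1) (m ^ (2 * c))
  | 0 => by simpa using YG_zero
  | c + 1 => by
    have h1 := YG_prod (YG_main m c) (YG_one m)
    have e1 : 3 * m * c + 1 + 3 * m = 3 * m * (c + 1) + 1 := by ring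
    have e2 : m ^ (2 * c) * (m * m) = m ^ (2 * (c + 1)) := by ring
    rwa [e1, e2] at h1

/-- configurations of `(2 + j)`-flats -/
theorem KG_main {c n : ℕ} (m j : ℕ) (hn : 3 * m * c + 1 ≤ n) :
    GoodK (2 + j) (Fin c → ℝ) (Fin (n + j)) (Fin (m ^ (2 * c))) :=
  GoodK.lift_iterate (GoodY.goodK (YG_mono (YG_main m c) hn le_rfl)) j

end Pool.Agent.helper8.GK
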